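import Pool.Agent.Lib.MP_e17db7_gt.Strips

/-!
# Square annuli are connected
-/

set_option linter.unusedVariables false

namespace Pool.Agent.Lib.MP_e17db7_gt

open Set Filter Topology

lemma exists_sign {p : ℝ} (h0 : 0 ≤ p) (h1 : p ≤ 1) :
    ∃ σ : ℝ, |σ| = 1 ∧ ∀ r, 0 ≤ r → r ≤ 1 / 2 → p + σ * r ∈ Icc (0 : ℝ) 1 := by
  by_cases h : p ≤ 1 / 2
  · refine ⟨1, by simp, fun r hr hr' => ⟨by linarith, by linarith⟩⟩
  · rw [not_le] at h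
    refine ⟨-1, by simp, fun r hr hr' => ⟨by linarith, by linarith⟩⟩

lemma mem_sq {x : ℝ × ℝ} : x ∈ Sq ↔ x.1 ∈ Icc (0 : ℝ) 1 ∧ x.2 ∈ Icc (0 : ℝ) 1 := by
  constructor
  · rintro ⟨⟨h1, h2⟩, ⟨h3, h4⟩⟩
    exact ⟨⟨h1, h3⟩, ⟨h2, h4⟩⟩
  · rintro ⟨⟨h1, h2⟩, ⟨h3, h4⟩⟩
    exact ⟨⟨h1, h3⟩, ⟨h2, h4⟩⟩

lemma annulus {e : ℝ × ℝ} (he : e ∈ Sq) {r1 r2 : ℝ} (h0 : 0 < r2) (h12 : r1 < r2)
    (h2 : r2 ≤ 1 / 2) :
    (∃ x ∈ Sq, r1 < dist x e ∧ dist x e < r2) ∧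
      IsPreconnected {x : Sq | r1 < dist x.1 e ∧ dist x.1 e < r2} := by
  obtain ⟨⟨he1, he1'⟩, ⟨he2, he2'⟩⟩ := mem_sq.mp he
  obtain ⟨σ, hσ, hσ'⟩ := exists_sign he1 he1'
  obtain ⟨τ, hτ, hτ'⟩ := exists_sign he2 he2'
  let c : ℝ → ℝ × ℝ := fun r => (e.1 + σ * r, e.2 + τ * r)
  have hc : Continuous c := by fun_prop
  have hσr : ∀ r, 0 ≤ r → |e.1 + σ * r - e.1| = r := by
    intro r hr
    rw [add_sub_cancel_left, abs_mul, hσ, one_mul, abs_of_nonneg hr]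
  have hτr : ∀ r, 0 ≤ r → |e.2 + τ * r - e.2| = r := by
    intro r hr
    rw [add_sub_cancel_left, abs_mul, hτ, one_mul, abs_of_nonneg hr]
  have hcd : ∀ r, 0 ≤ r → dist (c r) e = r := by
    intro r hr
    rw [Prod.dist_eq, Real.dist_eq, Real.dist_eq]
    show max |e.1 + σ * r - e.1| |e.2 + τ * r - e.2| = r
    rw [hσr r hr, hτr r hr, max_self]
  have hcm : ∀ r, 0 ≤ r → r ≤ 1 / 2 → c r ∈ Sq := fun r hr hr' =>
    mem_sq.mpr ⟨hσ' r hr hr', hτ' r hr hr'⟩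
  obtain ⟨r0, hr0, hr0', hr0''⟩ : ∃ r0, 0 ≤ r0 ∧ r1 < r0 ∧ r0 < r2 := by
    refine ⟨(max r1 0 + r2) / 2, ?_, ?_, ?_⟩
    · have := le_max_right r1 0; linarith
    · have := le_max_left r1 0; linarith
    · have := max_lt h12 h0; linarith
  refine ⟨⟨c r0, hcm r0 hr0 (by linarith), by rw [hcd r0 hr0]; exact hr0',
    by rw [hcd r0 hr0]; exact hr0''⟩, ?_⟩
  rw [← IsInducing.subtypeVal.isPreconnected_image]
  refine isPreconnected_of_forall (c r0) ?_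
  rintro _ ⟨x, ⟨hx1, hx2⟩, rfl⟩
  obtain ⟨x, hx⟩ := x
  simp only at hx1 hx2 ⊢
  obtain ⟨⟨g1, g1'⟩, ⟨g2, g2'⟩⟩ := mem_sq.mp hx
  obtain ⟨r, hr⟩ : ∃ r, r = dist x e := ⟨_, rfl⟩
  rw [← hr] at hx1 hx2
  have hrn : 0 ≤ r := by rw [hr]; exact dist_nonneg
  have hr' : r = max |x.1 - e.1| |x.2 - e.2| := by
    rw [hr, Prod.dist_eq, Real.dist_eq, Real.dist_eq]
  have hx1' : |x.1 - e.1| ≤ r := by rw [hr']; exact le_max_left _ _
  have hx2' : |x.2 - e.2| ≤ r := by rw [hr']; exact le_max_right _ _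
  have hT : ∀ z : ℝ × ℝ, z ∈ Sq → dist z e = r →
      z ∈ (Subtype.val '' {x : Sq | r1 < dist x.1 e ∧ dist x.1 e < r2}) := by
    intro z hz hzr
    exact ⟨⟨z, hz⟩, ⟨by show r1 < dist z e; rw [hzr]; exact hx1,
      by show dist z e < r2; rw [hzr]; exact hx2⟩, rfl⟩
  have hD : IsPreconnected (c '' Icc (min r r0) (max r r0)) :=
    isPreconnected_Icc.image _ hc.continuousOn
  have hD' : (c '' Icc (min r r0) (max r r0)) ⊆
      (Subtype.val '' {x : Sq | r1 < dist x.1 e ∧ dist x.1 e < r2}) := by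
    rintro _ ⟨q, ⟨hq1, hq2⟩, rfl⟩
    have b0 : 0 ≤ q := (le_min hrn hr0).trans hq1
    have b1 : r1 < q := (lt_min hx1 hr0').trans_le hq1
    have b2 : q < r2 := hq2.trans_lt (max_lt hx2 hr0'')
    exact ⟨⟨c q, hcm q b0 (by linarith)⟩, ⟨by show r1 < dist (c q) e; rw [hcd q b0]; exact b1,
      by show dist (c q) e < r2; rw [hcd q b0]; exact b2⟩, rfl⟩
  have hDr : c r ∈ c '' Icc (min r r0) (max r r0) :=
    ⟨r, ⟨min_le_left _ _, le_max_left _ _⟩, rfl⟩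
  have hDr0 : c r0 ∈ c '' Icc (min r r0) (max r r0) :=
    ⟨r0, ⟨min_le_right _ _, le_max_right _ _⟩, rfl⟩
  have hs := hσ' r hrn (by linarith)
  have ht := hτ' r hrn (by linarith)
  have hsa := hσr r hrn
  have hta := hτr r hrn
  have mI : ∀ a t : ℝ, t ∈ Icc (0 : ℝ) 1 → |t - a| ≤ r →
      t ∈ Icc (max 0 (a - r)) (min 1 (a + r)) := by
    intro a t ht hta
    rw [abs_le] at hta
    exact ⟨max_le ht.1 (by linarith), le_min ht.2 (by linarith)⟩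
  have mI' : ∀ a t : ℝ, t ∈ Icc (max 0 (a - r)) (min 1 (a + r)) →
      t ∈ Icc (0 : ℝ) 1 ∧ |t - a| ≤ r := by
    intro a t ht
    have c1 := (le_max_left _ _).trans ht.1
    have c2 := (le_max_right _ _).trans ht.1
    have c3 := ht.2.trans (min_le_left _ _)
    have c4 := ht.2.trans (min_le_right _ _)
    refine ⟨⟨c1, c3⟩, ?_⟩
    rw [abs_le]
    constructor <;> linarith
  rcases le_total |x.2 - e.2| |x.1 - e.1| with hle | hle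
  · have hr1 : |x.1 - e.1| = r := by rw [hr', max_eq_left hle]
    have hS1 : IsPreconnected
        (({x.1} : Set ℝ) ×ˢ Icc (max 0 (e.2 - r)) (min 1 (e.2 + r))) :=
      isPreconnected_singleton.prod isPreconnected_Icc
    have hS2 : IsPreconnected
        (Icc (max 0 (e.1 - r)) (min 1 (e.1 + r)) ×ˢ ({e.2 + τ * r} : Set ℝ)) :=
      isPreconnected_Icc.prod isPreconnected_singleton
    refine ⟨(({x.1} : Set ℝ) ×ˢ Icc (max 0 (e.2 - r)) (min 1 (e.2 + r))) ∪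
      ((Icc (max 0 (e.1 - r)) (min 1 (e.1 + r)) ×ˢ ({e.2 + τ * r} : Set ℝ)) ∪
        c '' Icc (min r r0) (max r r0)), ?_, Or.inr (Or.inr hDr0), ?_, ?_⟩
    · rintro z (⟨hz1, hz2⟩ | ⟨hz1, hz2⟩ | hz)
      · obtain ⟨m1, m2⟩ := mI' _ _ hz2
        rw [mem_singleton_iff] at hz1
        refine hT z (mem_sq.mpr ⟨by rw [hz1]; exact ⟨g1, g1'⟩, m1⟩) ?_
        rw [Prod.dist_eq, Real.dist_eq, Real.dist_eq, hz1, hr1, max_eq_left m2]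
      · obtain ⟨m1, m2⟩ := mI' _ _ hz1
        rw [mem_singleton_iff] at hz2
        refine hT z (mem_sq.mpr ⟨m1, by rw [hz2]; exact ht⟩) ?_
        rw [Prod.dist_eq, Real.dist_eq, Real.dist_eq, hz2, hta, max_eq_right m2]
      · exact hD' hz
    · exact Or.inl ⟨rfl, mI _ _ ⟨g2, g2'⟩ hx2'⟩
    · refine hS1.union (x.1, e.2 + τ * r) ?_ ?_ (hS2.union (c r) ?_ hDr hD)
      · exact ⟨rfl, mI _ _ ht hta.le⟩
      · exact Or.inl ⟨mI _ _ ⟨g1, g1'⟩ hx1', rfl⟩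
      · exact ⟨mI _ _ hs hsa.le, rfl⟩
  · have hr1 : |x.2 - e.2| = r := by rw [hr', max_eq_right hle]
    have hS1 : IsPreconnected
        (Icc (max 0 (e.1 - r)) (min 1 (e.1 + r)) ×ˢ ({x.2} : Set ℝ)) :=
      isPreconnected_Icc.prod isPreconnected_singleton
    have hS2 : IsPreconnected
        (({e.1 + σ * r} : Set ℝ) ×ˢ Icc (max 0 (e.2 - r)) (min 1 (e.2 + r))) :=
      isPreconnected_singleton.prod isPreconnected_Icc
    refine ⟨(Icc (max 0 (e.1 - r)) (min 1 (e.1 + r)) ×ˢ ({x.2} : Set ℝ)) ∪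
      ((({e.1 + σ * r} : Set ℝ) ×ˢ Icc (max 0 (e.2 - r)) (min 1 (e.2 + r))) ∪
        c '' Icc (min r r0) (max r r0)), ?_, Or.inr (Or.inr hDr0), ?_, ?_⟩
    · rintro z (⟨hz1, hz2⟩ | ⟨hz1, hz2⟩ | hz)
      · obtain ⟨m1, m2⟩ := mI' _ _ hz1
        rw [mem_singleton_iff] at hz2
        refine hT z (mem_sq.mpr ⟨m1, by rw [hz2]; exact ⟨g2, g2'⟩⟩) ?_
        rw [Prod.dist_eq, Real.dist_eq, Real.dist_eq, hz2, hr1, max_eq_right m2]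
      · obtain ⟨m1, m2⟩ := mI' _ _ hz2
        rw [mem_singleton_iff] at hz1
        refine hT z (mem_sq.mpr ⟨by rw [hz1]; exact hs, m1⟩) ?_
        rw [Prod.dist_eq, Real.dist_eq, Real.dist_eq, hz1, hsa, max_eq_left m2]
      · exact hD' hz
    · exact Or.inl ⟨mI _ _ ⟨g1, g1'⟩ hx1', rfl⟩
    · refine hS1.union (e.1 + σ * r, x.2) ?_ ?_ (hS2.union (c r) ?_ hDr hD)
      · exact ⟨mI _ _ hs hsa.le, rfl⟩
      · exact Or.inl ⟨rfl, mI _ _ ⟨g2, g2'⟩ hx2'⟩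
      · exact ⟨rfl, mI _ _ ht hta.le⟩

/-- A set whose fibres over a connected set are connected. -/
lemma isPreconnected_of_fibres {X Y : Type} [TopologicalSpace X] [TopologicalSpace Y]
    {C : Set (X × Y)} {C0 : Set X} (hC : IsOpen C) (hC0 : IsPreconnected C0)
    (hsub : ∀ p ∈ C, p.1 ∈ C0) (hne : ∀ x ∈ C0, ∃ y, (x, y) ∈ C)
    (hfib : ∀ x ∈ C0, IsPreconnected {y | (x, y) ∈ C}) : IsPreconnected C := by
  rintro A B hA hB hAB ⟨p, hp, hpA⟩ ⟨q, hq, hqB⟩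
  have hA' : IsOpen (Prod.fst '' (C ∩ A)) := isOpenMap_fst _ (hC.inter hA)
  have hB' : IsOpen (Prod.fst '' (C ∩ B)) := isOpenMap_fst _ (hC.inter hB)
  obtain ⟨x, hx, ⟨⟨x1, y1⟩, ⟨h1, h1A⟩, rfl⟩, ⟨⟨x2, y2⟩, ⟨h2, h2B⟩, e2⟩⟩ :=
    hC0 _ _ hA' hB' (fun x hx => by
      obtain ⟨y, hy⟩ := hne x hx
      rcases hAB hy with h | h
      · exact Or.inl ⟨(x, y), ⟨hy, h⟩, rfl⟩
      · exact Or.inr ⟨(x, y), ⟨hy, h⟩, rfl⟩)
      ⟨p.1, hsub p hp, ⟨p, ⟨hp, hpA⟩, rfl⟩⟩ ⟨q.1, hsub q hq, ⟨q, ⟨hq, hqB⟩, rfl⟩⟩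
  simp only at e2 hx
  subst e2
  have hcont : Continuous (fun y : Y => (x2, y)) := by fun_prop
  obtain ⟨y, hy, hyA, hyB⟩ := hfib x2 hx _ _ (hA.preimage hcont) (hB.preimage hcont)
    (fun y hy => hAB hy) ⟨y1, h1, h1A⟩ ⟨y2, h2, h2B⟩
  exact ⟨(x2, y), hy, hyA, hyB⟩

end Pool.Agent.Lib.MP_e17db7_gt
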