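import Mathlib

/-!
# Moore spaces and pseudocompact spaces
-/

namespace Pool.Agent.Lib.MP_e17db7_gt

open Set

/-- A development for a space `X`: a sequence `G 0, G 1, ...` of open covers such that for every
point `x` and every open `U` containing `x` there is `n` such that the star of `x` in `G n`, the
union of the members of `G n` which contain `x`, is contained in `U`. -/
def IsDevelopment {X : Type} [TopologicalSpace X] (G : ℕ → Set (Set X)) : Prop :=
  (∀ n, (∀ g ∈ G n, IsOpen g) ∧ ⋃₀ G n = univ) ∧
    ∀ (x : X) (U : Set X), IsOpen U → x ∈ U → ∃ n, ⋃₀ {g ∈ G n | x ∈ g} ⊆ U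

/-- A Moore space: a regular Hausdorff space which has a development. -/
structure MooreSpace (X : Type) [TopologicalSpace X] : Prop where
  hausdorff : T2Space X
  regular : RegularSpace X
  development : ∃ G : ℕ → Set (Set X), IsDevelopment G

/-- A space is pseudocompact if every continuous real function on it is bounded. -/
def Pseudocompact (X : Type) [TopologicalSpace X] : Prop :=
  ∀ f : X → ℝ, Continuous f → ∃ C, ∀ x, |f x| ≤ C

end Pool.Agent.Lib.MP_e17db7_gt
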