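import Pool.Agent.Lib.MP_e17db7_gt.Strips

/-!
# A maximal family of strips
-/

set_option linter.unusedVariables false
set_option linter.style.haveILetI false

namespace Pool.Agent.Lib.MP_e17db7_gt

open Vtx Set Filter Topology Cardinal

lemma exists_sub (P : ℕ → ℕ → Prop) (h : ∀ a, ∀ᶠ b in atTop, P a b) :
    ∃ ψ : ℕ → ℕ, StrictMono ψ ∧ ∀ k, P (ψ k) (ψ (k + 1)) := by
  have h' : ∀ a, ∃ b, a < b ∧ P a b := fun a =>
    ((eventually_gt_atTop a).and (h a)).exists
  choose g hg hg' using h'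
  refine ⟨fun n => Nat.rec 0 (fun _ a => g a) n, strictMono_nat_of_lt_succ fun k => ?_,
    fun k => ?_⟩
  · exact hg _
  · exact hg' _

/-- Thinning out. -/
lemma thin (w : ℕ → V) (hw : ∀ n, ∀ᶠ k in atTop, n < nrm (w k)) :
    ∃ φ : ℕ → ℕ, StrictMono φ ∧
      (∀ k l, k ≠ l → L (w (φ k)) + L (w (φ l)) ≤ d (w (φ k)) (w (φ l))) ∧
      ∃ lim : ℕ → ℕ → Option Bool, ∀ i m, ∀ᶠ k in atTop,
        (tgt^[i] (w (φ k)).1).label[m]? = lim i m := by
  letI : TopologicalSpace (Option Bool) := ⊥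
  haveI : DiscreteTopology (Option Bool) := ⟨rfl⟩
  obtain ⟨lim, φ, hφ, hlim⟩ := CompactSpace.tendsto_subseq
    (fun k : ℕ => fun i m : ℕ => (tgt^[i] (w k).1).label[m]?)
  have hP : ∀ a, ∀ᶠ b in atTop, 2 * nrm (w (φ a)) + 4 ≤ nrm (w (φ b)) := by
    intro a
    filter_upwards [hφ.tendsto_atTop.eventually (hw (2 * nrm (w (φ a)) + 4))] with b hb
    exact hb.le
  obtain ⟨ψ, hψ, hψ'⟩ := exists_sub _ hP
  have hmono : ∀ k l, k < l → 2 * nrm (w (φ (ψ k))) + 4 ≤ nrm (w (φ (ψ l))) := by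
    intro k l hkl
    induction l, hkl using Nat.le_induction with
    | base => exact hψ' k
    | succ l hl ih =>
      have := hψ' l
      omega
  have hsep : ∀ k l, k < l →
      L (w (φ (ψ k))) + L (w (φ (ψ l))) ≤ d (w (φ (ψ k))) (w (φ (ψ l))) := by
    intro k l hkl
    have h1 := hmono k l hkl
    have h2 := nrm_le (w (φ (ψ k))) (w (φ (ψ l)))
    unfold L
    omega
  refine ⟨φ ∘ ψ, hφ.comp hψ, ?_, lim, ?_⟩
  · intro k l hkl
    rcases lt_or_gt_of_ne hkl with h | h
    · exact hsep k l h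
    · have := hsep l k h
      rw [d_comm, add_comm] at this
      exact this
  · intro i m
    have h1 := hlim.comp hψ.tendsto_atTop
    rw [tendsto_pi_nhds] at h1
    have h2 := h1 i
    rw [tendsto_pi_nhds] at h2
    have h3 := h2 m
    rw [nhds_discrete, tendsto_pure] at h3
    exact h3

/-- Freshness. -/
lemma fresh {A : Type} (hA : #A < 𝔠) (S : A → Strip) :
    ∃ ξ : ℕ → Bool, (∀ a, ξ ≠ (S a).ξ) ∧ ∀ a i, (S a).lim i ≠ fun m => some (ξ m) := by
  by_contra hcon
  push Not at hcon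
  let h : A × Option ℕ → (ℕ → Bool) := fun p => match p with
    | (a, none) => (S a).ξ
    | (a, some i) => fun m => ((S a).lim i m).getD false
  have hsurj : Function.Surjective h := by
    intro ξ
    by_cases h1 : ∀ a, ξ ≠ (S a).ξ
    · obtain ⟨a, i, e⟩ := hcon ξ h1
      refine ⟨(a, some i), ?_⟩
      show (fun m => ((S a).lim i m).getD false) = ξ
      rw [e]
      rfl
    · push Not at h1
      obtain ⟨a, e⟩ := h1
      exact ⟨(a, none), e.symm⟩
  have h1 := mk_le_of_surjective hsurj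
  have h2 : #(ℕ → Bool) = 𝔠 := by simp
  rw [h2] at h1
  have h3 : #(A × Option ℕ) < 𝔠 := by
    rw [mk_prod, lift_id, lift_id]
    refine mul_lt_of_lt aleph0_le_continuum hA ?_
    exact (mk_le_aleph0 (α := Option ℕ)).trans_lt aleph0_lt_continuum
  exact absurd h1 (not_le.mpr h3)

/-- The sequence leaves the finite sets. -/
def Leaves (t : ℕ → V × (ℝ × ℝ)) : Prop :=
  (∀ k, (t k).2 ∈ Sq) ∧ ∀ F : Set V, F.Finite → ∀ᶠ k in atTop, (t k).1 ∉ F

/-- The strip catches the sequence. -/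
def Catches (S : Strip) (t : ℕ → V × (ℝ × ℝ)) : Prop :=
  ∃ C : ℝ, ∃ᶠ k in atTop, S.f (t k).1 (t k).2 ≤ C

/-- The relation between an earlier strip and a later one. -/
def Below (S' S : Strip) : Prop :=
  S.ξ ≠ S'.ξ ∧ (∀ i, S'.lim i ≠ fun m => some (S.ξ m)) ∧
    ∀ C : ℝ, {k | S'.f (S.v k) (S.x k) ≤ C}.Finite

lemma extend {A : Type} (hA : #A < 𝔠) (S : A → Strip) (t : ℕ → V × (ℝ × ℝ)) (ht : Leaves t)
    (hc : ∀ a, ¬ Catches (S a) t) : ∃ T : Strip, Catches T t ∧ ∀ a, Below (S a) T := by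
  obtain ⟨φ, hφ, hsep, lim, hlim⟩ := thin (fun k => (t k).1) (fun n => by
    filter_upwards [ht.2 _ (finite_nrm_le n)] with k hk
    exact not_le.mp hk)
  obtain ⟨ξ, h1, h2⟩ := fresh hA S
  let T : Strip := ⟨ξ, fun k => (t (φ k)).1, fun k => (t (φ k)).2, lim, fun k => ht.1 _, hsep,
    hlim⟩
  refine ⟨T, ⟨0, ?_⟩, fun a => ⟨h1 a, h2 a, fun C => ?_⟩⟩
  · refine hφ.tendsto_atTop.frequently (Frequently.of_forall fun k => ?_)
    exact (T.f_v k).le
  · have h3 := hc a
    unfold Catches at h3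
    push Not at h3
    have h4 : {k | (S a).f (t k).1 (t k).2 ≤ C}.Finite := by
      obtain ⟨N, hN⟩ := eventually_atTop.mp (h3 C)
      refine (Set.finite_Iio N).subset fun k hk => ?_
      by_contra hkN
      exact absurd hk (not_le.mpr (hN k (not_lt.mp hkN)))
    exact h4.preimage hφ.injective.injOn

lemma card_seq : #(ℕ → V × (ℝ × ℝ)) ≤ 𝔠 := by
  have h1 : #(V × (ℝ × ℝ)) ≤ 𝔠 := by
    simp only [mk_prod, lift_id, mk_real]
    have : #V ≤ ℵ₀ := mk_le_aleph0
    calc #V * (𝔠 * 𝔠) ≤ ℵ₀ * (𝔠 * 𝔠) := mul_le_mul_left this _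
      _ = 𝔠 := by simp
  calc #(ℕ → V × (ℝ × ℝ)) = #(V × (ℝ × ℝ)) ^ #ℕ := by rw [Cardinal.power_def]
    _ = #(V × (ℝ × ℝ)) ^ ℵ₀ := by rw [mk_nat]
    _ ≤ 𝔠 ^ ℵ₀ := power_le_power_right h1
    _ = 𝔠 := by simp

/-- The family of strips. -/
theorem exists_family : ∃ (I : Type) (S : I → Strip),
    (∀ t, Leaves t → ∃ i, Catches (S i) t) ∧
      ∀ i j, i ≠ j → Below (S i) (S j) ∨ Below (S j) (S i) := by
  classical
  obtain ⟨r, wo, hr⟩ := exists_ord_eq (ℕ → V × (ℝ × ℝ))
  let step : ∀ t : ℕ → V × (ℝ × ℝ), (∀ s, r s t → Option Strip) → Option Strip :=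
    fun t G => if h : ∃ T : Strip, Catches T t ∧ ∀ s (hs : r s t), ∀ T' ∈ G s hs, Below T' T
      then some h.choose else none
  let g : (ℕ → V × (ℝ × ℝ)) → Option Strip := wo.wf.fix step
  have hg : ∀ t, g t = step t (fun s _ => g s) := fun t => wo.wf.fix_eq step t
  have hgood : ∀ t T, g t = some T →
      Catches T t ∧ ∀ s, r s t → ∀ T', g s = some T' → Below T' T := by
    intro t T hT
    rw [hg t] at hT
    simp only [step] at hT
    split_ifs at hT with h
    have e := Option.some_injective _ hT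
    rw [← e]
    refine ⟨h.choose_spec.1, fun s hs T' hT' => h.choose_spec.2 s hs T' ?_⟩
    rw [hT']; rfl
  refine ⟨{t // (g t).isSome}, fun i => (g i.1).get i.2, ?_, ?_⟩
  · intro t ht
    by_contra hcon
    push Not at hcon
    have hA : #{s : {t // (g t).isSome} // r s.1 t} < 𝔠 := by
      have h1 : #{s : {t // (g t).isSome} // r s.1 t} ≤ #{s // r s t} := by
        refine mk_le_of_injective (f := fun s => (⟨s.1.1, s.2⟩ : {s // r s t})) ?_
        intro a b hab
        simp only [Subtype.mk.injEq] at hab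
        exact Subtype.ext (Subtype.ext hab)
      have h2 := card_typein_lt t hr
      rw [Ordinal.card_typein] at h2
      exact (h1.trans_lt h2).trans_le card_seq
    obtain ⟨T, hT1, hT2⟩ := extend hA (fun s => (g s.1.1).get s.1.2) t ht
      (fun s => hcon s.1)
    have h : ∃ T : Strip, Catches T t ∧ ∀ s (hs : r s t), ∀ T' ∈ g s, Below T' T := by
      refine ⟨T, hT1, fun s hs T' hT' => ?_⟩
      have hs' : (g s).isSome := Option.isSome_iff_exists.mpr ⟨T', hT'⟩
      have := hT2 ⟨⟨s, hs'⟩, hs⟩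
      simp only at this
      rwa [Option.get_of_mem hs' hT'] at this
    have h5 : g t = some h.choose := by
      rw [hg t]
      simp only [step]
      rw [dif_pos h]
    have h6 : (g t).isSome := by rw [h5]; rfl
    have h7 := hcon ⟨t, h6⟩
    simp only at h7
    rw [Option.get_of_eq_some h6 h5] at h7
    exact h7 h.choose_spec.1
  · have key : ∀ i j : {t // (g t).isSome}, r i.1 j.1 →
        Below ((g i.1).get i.2) ((g j.1).get j.2) := by
      intro i j hij
      exact (hgood j.1 _ (Option.some_get j.2).symm).2 i.1 hij _ (Option.some_get i.2).symm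
    intro i j hij
    by_cases h1 : r i.1 j.1
    · exact Or.inl (key i j h1)
    · by_cases h2 : r j.1 i.1
      · exact Or.inr (key j i h2)
      · exact absurd (Subtype.ext (wo.trichotomous i.1 j.1 h1 h2)) hij

end Pool.Agent.Lib.MP_e17db7_gt
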