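import Mathlib

/-!
# A locally finite graph in which every vertex has private roads
-/

set_option linter.unusedVariables false

namespace Pool.Agent.Lib.MP_e17db7_gt

/-- Raw vertices: hubs, labelled by finite binary sequences, and vertices of the road which leads
from the hub `c` to the vertex `v`. -/
inductive Vtx : Type
  | hub : List Bool → Vtx
  | road : Vtx → List Bool → ℕ → Vtx
  deriving DecidableEq, Countable

namespace Vtx

/-- The level of a vertex. -/
def N : Vtx → ℕ
  | hub c => c.length + 2
  | road _ c j => c.length + j + 1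

/-- The vertices which are used: there is a road of length `N v` to `v` from each hub of
level `N v`. -/
def Valid : Vtx → Prop
  | hub _ => True
  | road v c j => v.Valid ∧ c.length = v.N ∧ 1 ≤ j ∧ j < v.N

/-- The label. -/
def label : Vtx → List Bool
  | hub c => c
  | road _ c _ => c

/-- The end of the road. -/
def tgt : Vtx → Vtx
  | hub c => hub c
  | road v _ _ => v

/-- Being far from the end of the road. -/
def Far (k : ℕ) : Vtx → Prop
  | hub _ => True
  | road v _ j => k < v.N - j

lemma label_length_lt (v : Vtx) : v.label.length < v.N := by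
  cases v <;> simp only [label, N] <;> omega

lemma valid_hub (c : List Bool) : (hub c).Valid := trivial

/-- The edges. -/
inductive Step : Vtx → Vtx → Prop
  | tree (c : List Bool) (b : Bool) : Step (hub c) (hub (c ++ [b]))
  | start (v : Vtx) (c : List Bool) : c.length = v.N → Step (hub c) (road v c 1)
  | along (v : Vtx) (c : List Bool) (j : ℕ) : c.length = v.N → 1 ≤ j → j + 1 < v.N →
      Step (road v c j) (road v c (j + 1))
  | stop (v : Vtx) (c : List Bool) : c.length = v.N → Step (road v c (v.N - 1)) v

/-- `u` is above `r`: one gets from `u` to `r` by going to the ends of roads, at total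
distance `D`. -/
inductive Desc : Vtx → Vtx → ℕ → Prop
  | refl (u : Vtx) : Desc u u 0
  | step {v r : Vtx} {D : ℕ} (c : List Bool) (j : ℕ) : Desc v r D →
      Desc (road v c j) r (D + (v.N - j))

/-- The list `c` agrees with `ξ` up to `k`. -/
def Agree (l : List Bool) (ξ : ℕ → Bool) (k : ℕ) : Prop :=
  k ≤ l.length ∧ ∀ i < k, l[i]? = some (ξ i)

lemma Agree.mono {c : List Bool} {ξ : ℕ → Bool} {k l : ℕ} (h : Agree c ξ k) (hl : l ≤ k) :
    Agree c ξ l := ⟨hl.trans h.1, fun i hi => h.2 i (hi.trans_le hl)⟩

lemma Far.mono {v : Vtx} {k l : ℕ} (h : v.Far k) (hl : l ≤ k) : v.Far l := by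
  cases v with
  | hub c => trivial
  | road v c j => exact lt_of_le_of_lt hl h

lemma Desc.N_le {u r : Vtx} {D : ℕ} (h : Desc u r D) (hu : u.Valid) : r.N ≤ u.N := by
  induction h with
  | refl u => exact le_rfl
  | step c j h ih =>
    obtain ⟨h1, h2, h3, h4⟩ := hu
    have := ih h1
    show _ ≤ c.length + j + 1
    omega

/-- The invariant of the path lemma. -/
def Inv (M n : ℕ) (ξ : ℕ → Bool) (s : ℕ) (u : Vtx) : Prop :=
  ∃ r D, Desc u r D ∧ D ≤ s ∧ Agree r.label ξ (n - s) ∧ r.Far (M - s)

lemma Inv.step {M n : ℕ} {ξ : ℕ → Bool} {s : ℕ} (hs : s < M) (hn : 2 * M + 2 ≤ n) {u u' : Vtx}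
    (hu : u.Valid) (hu' : u'.Valid) (h : Step u u' ∨ Step u' u) (hi : Inv M n ξ s u) :
    Inv M n ξ (s + 1) u' := by
  obtain ⟨r, D, hd, hD, ha, hf⟩ := hi
  have ha' : Agree r.label ξ (n - (s + 1)) := ha.mono (by omega)
  have hf' : r.Far (M - (s + 1)) := hf.mono (by omega)
  rcases h with h | h
  · cases h with
    | tree c b =>
      cases hd
      refine ⟨hub (c ++ [b]), 0, Desc.refl _, by omega, ?_, trivial⟩
      refine ⟨?_, fun i hi => ?_⟩
      · have := ha.1
        simp only [label, List.length_append, List.length_singleton] at this ⊢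
        omega
      · have h1 := ha.2 i (by omega)
        have h2 := ha.1
        simp only [label] at h1 h2 ⊢
        rw [List.getElem?_append_left (by omega)]
        exact h1
    | start v c hc =>
      cases hd
      refine ⟨road v c 1, 0, Desc.refl _, by omega, ha', ?_⟩
      have h2 := ha.1
      simp only [label] at h2
      show M - (s + 1) < v.N - 1
      omega
    | along v c j hc h1 h2 =>
      cases hd with
      | refl =>
        refine ⟨road v c (j + 1), 0, Desc.refl _, by omega, ha', ?_⟩
        have h3 : M - s < v.N - j := hf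
        show M - (s + 1) < v.N - (j + 1)
        omega
      | step _ _ hd' =>
        refine ⟨r, _, Desc.step c (j + 1) hd', by omega, ha', hf'⟩
    | stop _ c hc =>
      cases hd with
      | refl =>
        exfalso
        have h3 : M - s < u'.N - (u'.N - 1) := hf
        omega
      | step _ _ hd' =>
        exact ⟨r, _, hd', by omega, ha', hf'⟩
  · cases h with
    | tree c b =>
      cases hd
      refine ⟨hub c, 0, Desc.refl _, by omega, ?_, trivial⟩
      have h2 := ha.1
      simp only [label, List.length_append, List.length_singleton] at h2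
      refine ⟨?_, fun i hi => ?_⟩
      · simp only [label]
        omega
      · have h1 := ha.2 i (by omega)
        simp only [label] at h1 ⊢
        rw [List.getElem?_append_left (by omega)] at h1
        exact h1
    | start v c hc =>
      cases hd with
      | refl => exact ⟨hub c, 0, Desc.refl _, by omega, ha', trivial⟩
      | step _ _ hd' =>
        exfalso
        have h1 := hd'.N_le hu.1
        have h2 := r.label_length_lt
        have h3 := ha.1
        omega
    | along v c j hc h1 h2 =>
      cases hd with
      | refl =>
        refine ⟨road v c j, 0, Desc.refl _, by omega, ha', ?_⟩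
        have h3 : M - s < v.N - (j + 1) := hf
        show M - (s + 1) < v.N - j
        omega
      | step _ _ hd' =>
        refine ⟨r, _, Desc.step c j hd', by omega, ha', hf'⟩
    | stop _ c hc =>
      refine ⟨r, _, Desc.step c (u.N - 1) hd, ?_, ha', hf'⟩
      have h1 : 2 ≤ u.N := by
        cases u with
        | hub c => simp [N]
        | road v c' j =>
          obtain ⟨_, _, h3, _⟩ := hu
          simp only [N]; omega
      omega

lemma Desc.exists_iterate {u r : Vtx} {D : ℕ} (h : Desc u r D) (hu : u.Valid) :
    ∃ i ≤ D, r = tgt^[i] u := by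
  induction h with
  | refl u => exact ⟨0, le_rfl, rfl⟩
  | step c j h ih =>
    obtain ⟨h1, h2, h3, h4⟩ := hu
    obtain ⟨i, hi, e⟩ := ih h1
    refine ⟨i + 1, by omega, ?_⟩
    rw [Function.iterate_succ_apply, e]
    rfl

lemma finite_N_le (n : ℕ) : {v : Vtx | v.Valid ∧ v.N ≤ n}.Finite := by
  induction n with
  | zero =>
    apply Set.Finite.subset Set.finite_empty
    rintro v ⟨_, hv⟩
    have := v.label_length_lt
    omega
  | succ n ih =>
    have hl := List.finite_length_le Bool (n + 1)
    have hj := Set.finite_Iic (n + 1)
    have h1 := (hl.image hub)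
    have h2 := ((ih.prod (hl.prod hj)).image
      (fun p : Vtx × (List Bool × ℕ) => road p.1 p.2.1 p.2.2))
    refine (h1.union h2).subset ?_
    rintro v ⟨hv, hvn⟩
    cases v with
    | hub c =>
      left
      refine ⟨c, ?_, rfl⟩
      simp only [N] at hvn
      simp only [Set.mem_ofPred_eq]
      omega
    | road v c j =>
      right
      obtain ⟨g1, g2, g3, g4⟩ := hv
      simp only [N] at hvn
      refine ⟨(v, c, j), ⟨⟨g1, ?_⟩, ?_, ?_⟩, rfl⟩
      · simp only; omega
      · simp only [Set.mem_ofPred_eq]; omega
      · simp only [Set.mem_Iic]; omega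

lemma finite_label_le (n : ℕ) : {v : Vtx | v.Valid ∧ v.label.length ≤ n}.Finite := by
  refine (finite_N_le (2 * n + 2)).subset ?_
  rintro v ⟨hv, hvn⟩
  refine ⟨hv, ?_⟩
  cases v with
  | hub c => simp only [N, label] at *; omega
  | road v c j =>
    obtain ⟨g1, g2, g3, g4⟩ := hv
    simp only [N, label] at *
    omega

lemma finite_step_out (a : Vtx) : {b : Vtx | b.Valid ∧ Step a b}.Finite := by
  cases a with
  | hub c =>
    have h1 := (Set.finite_univ (α := Bool)).image (fun b => hub (c ++ [b]))
    have h2 := (finite_N_le c.length).image (fun v => road v c 1)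
    refine (h1.union h2).subset ?_
    rintro b ⟨hb, h⟩
    cases h with
    | tree _ b => left; exact ⟨b, trivial, rfl⟩
    | start v _ hc => right; exact ⟨v, ⟨hb.1, hc.ge⟩, rfl⟩
  | road v c j =>
    refine (Set.toFinite {road v c (j + 1), v}).subset ?_
    rintro b ⟨hb, h⟩
    cases h with
    | along => left; rfl
    | stop => right; rfl

lemma finite_step_in (a : Vtx) : {b : Vtx | b.Valid ∧ Step b a}.Finite := by
  have h0 : {b : Vtx | ∃ c : List Bool, c.length = a.N ∧ b = road a c (a.N - 1)}.Finite := by
    refine ((List.finite_length_eq Bool a.N).image (fun c => road a c (a.N - 1))).subset ?_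
    rintro b ⟨c, hc, rfl⟩
    exact ⟨c, hc, rfl⟩
  cases a with
  | hub c =>
    have h1 : {b : Vtx | b = hub c.dropLast}.Finite := Set.finite_singleton _
    refine (h0.union h1).subset ?_
    rintro b ⟨hb, h⟩
    generalize ha : hub c = a at h h0
    cases h with
    | tree c' b' =>
      right
      cases ha
      simp
    | start v c' hc => cases ha
    | along => cases ha
    | stop _ c' hc => left; exact ⟨c', hc, rfl⟩
  | road v c j =>
    have h1 : ({hub c, road v c (j - 1)} : Set Vtx).Finite := Set.toFinite _
    refine (h0.union h1).subset ?_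
    rintro b ⟨hb, h⟩
    generalize ha : road v c j = a at h h0
    cases h with
    | tree c' b' => cases ha
    | start v c' hc => cases ha; right; left; rfl
    | along v c' j' => cases ha; right; right; rfl
    | stop _ c' hc => left; exact ⟨c', hc, rfl⟩

end Vtx

end Pool.Agent.Lib.MP_e17db7_gt
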