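import Pool.Agent.Lib.MP_e17db7_gt.Graph

/-!
# The graph metric
-/

set_option linter.unusedVariables false

namespace Pool.Agent.Lib.MP_e17db7_gt

open Vtx

/-- The vertices. -/
abbrev V : Type := {v : Vtx // v.Valid}

/-- The graph. -/
def Gm : SimpleGraph V := SimpleGraph.fromRel (fun a b => Step a.1 b.1)

lemma gm_adj {a b : V} : Gm.Adj a b ↔ a ≠ b ∧ (Step a.1 b.1 ∨ Step b.1 a.1) :=
  SimpleGraph.fromRel_adj _ _ _

lemma step_ne {a b : Vtx} (h : Step a b) : a ≠ b := by
  cases h with
  | tree c b => intro e; injection e with e; simp at e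
  | start v c hc => intro e; cases e
  | along v c j => intro e; injection e with _ _ e; omega
  | stop _ c hc =>
    intro e
    have e' : c.length + (b.N - 1) + 1 = b.N := congrArg Vtx.N e
    omega

lemma adj_of_step {a b : V} (h : Step a.1 b.1) : Gm.Adj a b :=
  gm_adj.mpr ⟨fun e => step_ne h (congrArg Subtype.val e), Or.inl h⟩

/-- The root. -/
def root : V := ⟨hub [], trivial⟩

/-- The hubs. -/
def hubV (c : List Bool) : V := ⟨hub c, trivial⟩

lemma reach_hub (c : List Bool) : Gm.Reachable root (hubV c) := by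
  induction c using List.reverseRecOn with
  | nil => exact SimpleGraph.Reachable.refl _
  | append_singleton c b ih =>
    exact ih.trans (SimpleGraph.Adj.reachable (adj_of_step (a := hubV c) (b := hubV (c ++ [b]))
      (Step.tree c b)))

lemma reach_road (v : Vtx) (c : List Bool) (j : ℕ) (h : (road v c j).Valid) :
    Gm.Reachable (hubV c) ⟨road v c j, h⟩ := by
  obtain ⟨h1, h2, h3, h4⟩ := h
  induction j, h3 using Nat.le_induction with
  | base =>
    exact SimpleGraph.Adj.reachable (adj_of_step (a := hubV c) (Step.start v c h2))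
  | succ j hj ih =>
    refine (ih (by omega)).trans (SimpleGraph.Adj.reachable (adj_of_step ?_))
    exact Step.along v c j h2 hj h4

lemma gm_connected : Gm.Connected := by
  have h : ∀ a : V, Gm.Reachable root a := by
    rintro ⟨a, ha⟩
    cases a with
    | hub c => exact reach_hub c
    | road v c j => exact (reach_hub c).trans (reach_road v c j ha)
  have : Nonempty V := ⟨root⟩
  exact ⟨fun a b => (h a).symm.trans (h b)⟩

lemma finite_adj (a : V) : {b : V | Gm.Adj a b}.Finite := by
  have h1 := (finite_step_out a.1).union (finite_step_in a.1)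
  refine Set.Finite.of_finite_image (f := Subtype.val) (h1.subset ?_)
    (Subtype.val_injective.injOn)
  rintro _ ⟨b, hb, rfl⟩
  rcases (gm_adj.mp hb).2 with h | h
  · left; exact ⟨b.2, h⟩
  · right; exact ⟨b.2, h⟩

/-- The graph distance. -/
noncomputable def d (a b : V) : ℕ := Gm.dist a b

lemma d_comm (a b : V) : d a b = d b a := SimpleGraph.dist_comm

lemma d_self (a : V) : d a a = 0 := SimpleGraph.dist_self

lemma d_triangle (a b c : V) : d a c ≤ d a b + d b c := gm_connected.dist_triangle

lemma d_adj {a b : V} (h : Gm.Adj a b) : d a b = 1 := SimpleGraph.dist_eq_one_iff_adj.mpr h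

lemma exists_walk (a b : V) : ∃ p : Gm.Walk a b, p.length = d a b :=
  (gm_connected a b).exists_walk_length_eq_dist

lemma finite_ball (a : V) (n : ℕ) : {b : V | d a b ≤ n}.Finite := by
  induction n with
  | zero =>
    refine (Set.finite_singleton a).subset ?_
    intro b hb
    have : d a b = 0 := Nat.le_zero.mp hb
    exact (gm_connected.dist_eq_zero_iff.mp this).symm
  | succ n ih =>
    refine (ih.union (ih.biUnion fun c _ => finite_adj c)).subset ?_
    intro b hb
    obtain ⟨p, hp⟩ := exists_walk b a
    cases p with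
    | nil =>
      left
      show d a a ≤ n
      rw [d_self]; exact Nat.zero_le n
    | cons h q =>
      rename_i c
      right
      rw [Set.mem_iUnion₂]
      refine ⟨c, ?_, h.symm⟩
      rw [SimpleGraph.Walk.length_cons] at hp
      have h1 : d c a ≤ q.length := SimpleGraph.dist_le q
      have h2 : d a b ≤ n + 1 := hb
      rw [d_comm] at h2
      show d a c ≤ n
      rw [d_comm]
      omega

/-- The path lemma. -/
lemma path_lemma {M n : ℕ} {ξ : ℕ → Bool} (hn : 2 * M + 2 ≤ n) {p q : V}
    (hp : Agree p.1.label ξ n) (hf : p.1.Far M) (hd : d p q ≤ M) :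
    ∃ r D, Desc q.1 r D ∧ D ≤ M ∧ Agree r.label ξ (n - M) := by
  obtain ⟨w, hw⟩ := exists_walk p q
  have key : ∀ (s : ℕ) (a b : V) (w : Gm.Walk a b), s + w.length ≤ M → Inv M n ξ s a.1 →
      Inv M n ξ (s + w.length) b.1 := by
    intro s a b w
    induction w generalizing s with
    | nil => intro _ h; exact h
    | cons h q ih =>
      rename_i a' c' b'
      intro hs hi
      rw [SimpleGraph.Walk.length_cons] at hs
      have h1 := hi.step (by omega) hn a'.2 c'.2 (gm_adj.mp h).2
      have h2 := ih (s + 1) (by omega) h1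
      rw [SimpleGraph.Walk.length_cons]
      have e : s + 1 + q.length = s + (q.length + 1) := by omega
      rw [e] at h2
      exact h2
  have h0 : Inv M n ξ 0 p.1 := ⟨p.1, 0, Desc.refl _, le_rfl, hp, hf⟩
  obtain ⟨r, D, h1, h2, h3, h4⟩ := key 0 p q w (by omega) h0
  exact ⟨r, D, h1, by omega, h3.mono (by omega)⟩

/-- The distance from a vertex of a road to the end of the road. -/
lemma d_tgt (v : V) (c : List Bool) (j : ℕ) (h : (road v.1 c j).Valid) :
    d ⟨road v.1 c j, h⟩ v ≤ v.1.N - j := by
  obtain ⟨h1, h2, h3, h4⟩ := h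
  obtain ⟨k, hk⟩ : ∃ k, v.1.N - j = k + 1 := ⟨v.1.N - j - 1, by omega⟩
  induction k generalizing j with
  | zero =>
    have hj : j = v.1.N - 1 := by omega
    subst hj
    rw [d_adj (adj_of_step (Step.stop v.1 c h2))]
    omega
  | succ k ih =>
    have hv : (road v.1 c (j + 1)).Valid := ⟨h1, h2, by omega, by omega⟩
    have h5 := ih (j + 1) (by omega) (by omega) (by omega)
    have h6 : Gm.Adj (⟨road v.1 c j, ⟨h1, h2, h3, h4⟩⟩ : V) ⟨road v.1 c (j + 1), hv⟩ :=
      adj_of_step (Step.along v.1 c j h2 h3 (by omega))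
    have h7 := d_triangle ⟨road v.1 c j, ⟨h1, h2, h3, h4⟩⟩ ⟨road v.1 c (j + 1), hv⟩ v
    rw [d_adj h6] at h7
    omega

/-- The norm of a vertex. -/
noncomputable def nrm (a : V) : ℕ := d root a

lemma nrm_le (a b : V) : nrm b ≤ nrm a + d a b := d_triangle _ _ _

lemma finite_nrm_le (n : ℕ) : {a : V | nrm a ≤ n}.Finite := finite_ball root n

/-- The scale function. -/
noncomputable def L (a : V) : ℕ := nrm a / 4 + 1

lemma L_pos (a : V) : 1 ≤ L a := by unfold L; omega

lemma L_le (a b : V) : L b ≤ L a + d a b := by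
  have := nrm_le a b
  unfold L; omega

end Pool.Agent.Lib.MP_e17db7_gt
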