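import Pool.Agent.Lib.MP_e17db7_gt.Strips

/-!
# The realisation of the graph
-/

set_option linter.unusedVariables false
set_option linter.style.haveILetI false

namespace Pool.Agent.Lib.MP_e17db7_gt

open Set Filter Topology

/-- The closed star of a vertex. -/
noncomputable def st (u : V) : Finset V := ((finite_adj u).insert u).toFinset

lemma mem_st {u v : V} : v ∈ st u ↔ v = u ∨ Gm.Adj u v := by
  simp [st]

lemma mem_st_self (u : V) : u ∈ st u := mem_st.mpr (Or.inl rfl)

lemma mem_st_comm {u v : V} (h : v ∈ st u) : u ∈ st v := by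
  rcases mem_st.mp h with rfl | h
  · exact mem_st_self _
  · exact mem_st.mpr (Or.inr h.symm)

lemma d_of_mem_st {u v : V} (h : v ∈ st u) : d u v ≤ 1 := by
  rcases mem_st.mp h with rfl | h
  · rw [d_self]; exact Nat.zero_le _
  · exact (d_adj h).le

/-- The cone over the realisation of the clique complex of the graph. -/
def CxBar : Set (V → ℝ) :=
  {y | (∀ v, y v ∈ Icc (0 : ℝ) 1) ∧ (∀ u v, v ∉ st u → y u * y v = 0) ∧
    ∀ u, y u * (∑ v ∈ st u, y v - 1) = 0}

/-- The realisation of the clique complex of the graph. -/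
def Cx : Set (V → ℝ) := {y | y ∈ CxBar ∧ y ≠ 0}

lemma isCompact_CxBar : IsCompact CxBar := by
  have h1 : IsCompact (Set.pi univ (fun _ : V => Icc (0 : ℝ) 1)) :=
    isCompact_univ_pi fun _ => isCompact_Icc
  refine h1.of_isClosed_subset ?_ (fun y hy v _ => hy.1 v)
  have e : CxBar = (⋂ v, {y : V → ℝ | y v ∈ Icc (0 : ℝ) 1}) ∩
      ((⋂ u, ⋂ v, ⋂ (_ : v ∉ st u), {y : V → ℝ | y u * y v = 0}) ∩
        ⋂ u, {y : V → ℝ | y u * (∑ v ∈ st u, y v - 1) = 0}) := by
    ext y
    simp only [CxBar, mem_ofPred_eq, mem_inter_iff, mem_iInter]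
  rw [e]
  refine IsClosed.inter ?_ (IsClosed.inter ?_ ?_)
  · exact isClosed_iInter fun v => isClosed_Icc.preimage (continuous_apply v)
  · exact isClosed_iInter fun u => isClosed_iInter fun v => isClosed_iInter fun _ =>
      isClosed_eq (by fun_prop) continuous_const
  · exact isClosed_iInter fun u => isClosed_eq (by fun_prop) continuous_const

lemma isCompact_of_closed {A : Set (V → ℝ)} (hA : IsClosed A) (h : ∀ y ∈ A, y ≠ 0) :
    IsCompact (Subtype.val ⁻¹' A : Set Cx) := by
  rw [Subtype.isCompact_iff]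
  have e : (Subtype.val '' (Subtype.val ⁻¹' A : Set Cx)) = CxBar ∩ A := by
    ext y
    constructor
    · rintro ⟨z, hz, rfl⟩
      exact ⟨z.2.1, hz⟩
    · rintro ⟨h1, h2⟩
      exact ⟨⟨y, h1, h y h2⟩, h2, rfl⟩
  rw [e]
  exact isCompact_CxBar.inter_right hA

section basic

variable {y z : V → ℝ}

lemma cx_nonneg (hy : y ∈ Cx) (v : V) : 0 ≤ y v := (hy.1.1 v).1

lemma cx_exists (hy : y ∈ Cx) : ∃ u, y u ≠ 0 := Function.ne_iff.mp hy.2

lemma cx_supp (hy : y ∈ Cx) {u v : V} (hu : y u ≠ 0) (hv : y v ≠ 0) : v ∈ st u := by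
  by_contra h
  rcases mul_eq_zero.mp (hy.1.2.1 u v h) with h | h
  · exact hu h
  · exact hv h

lemma cx_sum_st (hy : y ∈ Cx) {u : V} (hu : y u ≠ 0) : ∑ v ∈ st u, y v = 1 := by
  rcases mul_eq_zero.mp (hy.1.2.2 u) with h | h
  · exact absurd h hu
  · linarith

lemma cx_sum (hy : y ∈ Cx) {F : Finset V} (hF : ∀ v, y v ≠ 0 → v ∈ F) : ∑ v ∈ F, y v = 1 := by
  classical
  obtain ⟨u, hu⟩ := cx_exists hy
  rw [← cx_sum_st hy hu, ← Finset.sum_subset (Finset.inter_subset_left (s₁ := F) (s₂ := st u)),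
    Finset.sum_subset (Finset.inter_subset_right (s₁ := F) (s₂ := st u))]
  · intro v hv hv'
    by_contra h
    exact hv' (Finset.mem_inter.mpr ⟨hF v h, hv⟩)
  · intro v hv hv'
    by_contra h
    exact hv' (Finset.mem_inter.mpr ⟨hv, cx_supp hy hu h⟩)

lemma mem_cx (h0 : ∀ v, 0 ≤ y v) (u : V) (hu : ∀ v, y v ≠ 0 → v ∈ st u)
    (hp : ∀ u v, y u ≠ 0 → y v ≠ 0 → v ∈ st u) (hs : ∑ v ∈ st u, y v = 1) : y ∈ Cx := by
  classical
  have hs' : ∀ w, y w ≠ 0 → ∑ v ∈ st w, y v = 1 := by
    intro w hw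
    rw [← hs, ← Finset.sum_subset (Finset.inter_subset_left (s₁ := st w) (s₂ := st u)),
      Finset.sum_subset (Finset.inter_subset_right (s₁ := st w) (s₂ := st u))]
    · intro v hv hv'
      by_contra h
      exact hv' (Finset.mem_inter.mpr ⟨hp w v hw h, hv⟩)
    · intro v hv hv'
      by_contra h
      exact hv' (Finset.mem_inter.mpr ⟨hv, hu v h⟩)
  refine ⟨⟨fun v => ⟨h0 v, ?_⟩, fun a b hab => ?_, fun a => ?_⟩, ?_⟩
  · by_cases hv : y v = 0
    · rw [hv]; exact zero_le_one
    · rw [← hs]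
      exact Finset.single_le_sum (fun i _ => h0 i) (hu v hv)
  · by_contra h
    exact hab (hp a b (left_ne_zero_of_mul h) (right_ne_zero_of_mul h))
  · by_cases ha : y a = 0
    · rw [ha, zero_mul]
    · rw [hs' a ha]; ring
  · rintro rfl
    simp at hs

lemma single_ne {u v : V} (h : (Pi.single u 1 : V → ℝ) v ≠ 0) : v = u := by
  by_contra hne
  exact h (Pi.single_eq_of_ne hne _)

lemma single_mem (u : V) : (Pi.single u 1 : V → ℝ) ∈ Cx := by
  refine mem_cx (fun v => ?_) u (fun v hv => ?_) (fun a b ha hb => ?_) ?_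
  · by_cases h : v = u
    · subst h; simp
    · rw [Pi.single_eq_of_ne h]
  · rw [single_ne hv]; exact mem_st_self u
  · rw [single_ne ha, single_ne hb]; exact mem_st_self u
  · rw [Finset.sum_eq_single u]
    · simp
    · intro b _ hb
      exact Pi.single_eq_of_ne hb _
    · intro h; exact absurd (mem_st_self u) h

/-- The points of the complex which are compatible: they lie in one simplex. -/
def Cmp (y z : V → ℝ) : Prop :=
  ∀ u v, (y u ≠ 0 ∨ z u ≠ 0) → (y v ≠ 0 ∨ z v ≠ 0) → v ∈ st u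

lemma seg_mem (hy : y ∈ Cx) (hz : z ∈ Cx) (h : Cmp y z) : segment ℝ y z ⊆ Cx := by
  rintro _ ⟨a, b, ha, hb, hab, rfl⟩
  have hne : ∀ v, (a • y + b • z) v ≠ 0 → (y v ≠ 0 ∨ z v ≠ 0) := by
    intro v hv
    by_contra hcon
    push Not at hcon
    apply hv
    simp [hcon.1, hcon.2]
  obtain ⟨u, hu⟩ := cx_exists hy
  refine mem_cx (fun v => ?_) u (fun v hv => h u v (Or.inl hu) (hne v hv))
    (fun a b ha hb => h a b (hne a ha) (hne b hb)) ?_
  · have := cx_nonneg hy v
    have := cx_nonneg hz v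
    simp only [Pi.add_apply, Pi.smul_apply, smul_eq_mul]
    positivity
  · simp only [Pi.add_apply, Pi.smul_apply, smul_eq_mul]
    rw [Finset.sum_add_distrib, ← Finset.mul_sum, ← Finset.mul_sum,
      cx_sum hy (fun v hv => h u v (Or.inl hu) (Or.inl hv)),
      cx_sum hz (fun v hv => h u v (Or.inl hu) (Or.inr hv))]
    linarith

end basic

section lin

variable {E : Type} [AddCommGroup E] [Module ℝ E]

/-- The extension of a function on the vertices. -/
noncomputable def lin (G : V → E) (y : V → ℝ) : E := ∑ᶠ v, y v • G v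

lemma lin_eq (G : V → E) {y : V → ℝ} {F : Finset V} (hF : ∀ v, y v ≠ 0 → v ∈ F) :
    lin G y = ∑ v ∈ F, y v • G v := by
  apply finsum_eq_sum_of_support_subset
  intro v hv
  apply hF
  intro h
  apply hv
  show y v • G v = 0
  rw [h, zero_smul]

lemma lin_single (G : V → E) (u : V) : lin G (Pi.single u 1) = G u := by
  rw [lin_eq G (F := {u}) (fun v hv => by rw [single_ne hv]; exact Finset.mem_singleton_self u)]
  simp

lemma lin_add (G : V → E) {y z : V → ℝ} (hy : y ∈ Cx) (hz : z ∈ Cx) (h : Cmp y z) (a b : ℝ) :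
    lin G (a • y + b • z) = a • lin G y + b • lin G z := by
  obtain ⟨u, hu⟩ := cx_exists hy
  have hne : ∀ v, (a • y + b • z) v ≠ 0 → (y v ≠ 0 ∨ z v ≠ 0) := by
    intro v hv
    by_contra hcon
    push Not at hcon
    apply hv
    simp [hcon.1, hcon.2]
  rw [lin_eq G (F := st u) (fun v hv => h u v (Or.inl hu) (hne v hv)),
    lin_eq G (F := st u) (fun v hv => h u v (Or.inl hu) (Or.inl hv)),
    lin_eq G (F := st u) (fun v hv => h u v (Or.inl hu) (Or.inr hv)),
    Finset.smul_sum, Finset.smul_sum, ← Finset.sum_add_distrib]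
  refine Finset.sum_congr rfl fun v _ => ?_
  simp only [Pi.add_apply, Pi.smul_apply, smul_eq_mul]
  module

lemma lin_mem {s : Set E} (hs : Convex ℝ s) (G : V → E) {y : V → ℝ} (hy : y ∈ Cx)
    (h : ∀ v, y v ≠ 0 → G v ∈ s) : lin G y ∈ s := by
  classical
  obtain ⟨u, hu⟩ := cx_exists hy
  have hF : ∀ v, y v ≠ 0 → v ∈ (st u).filter (fun v => y v ≠ 0) := fun v hv =>
    Finset.mem_filter.mpr ⟨cx_supp hy hu hv, hv⟩
  rw [lin_eq G hF]
  exact hs.sum_mem (fun i _ => cx_nonneg hy i) (cx_sum hy hF)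
    (fun i hi => h i (Finset.mem_filter.mp hi).2)

lemma exists_le (G : V → ℝ) {y : V → ℝ} (hy : y ∈ Cx) : ∃ u, y u ≠ 0 ∧ G u ≤ lin G y := by
  by_contra hcon
  push Not at hcon
  have := lin_mem (convex_Ioi (lin G y)) G hy hcon
  exact lt_irrefl _ (mem_Ioi.mp this)

end lin

lemma lin_dist {E : Type} [NormedAddCommGroup E] [NormedSpace ℝ E] (G : V → E) {y : V → ℝ}
    (hy : y ∈ Cx) {u : V} (hu : y u ≠ 0) {c : ℝ} (h : ∀ w ∈ st u, dist (G w) (G u) ≤ c) :
    dist (lin G y) (G u) ≤ c := by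
  have := lin_mem (convex_closedBall (G u) c) G hy (fun v hv => h v (cx_supp hy hu hv))
  exact this

lemma continuous_lin {E : Type} [NormedAddCommGroup E] [NormedSpace ℝ E] (G : V → E) :
    Continuous (fun y : Cx => lin G y.1) := by
  rw [continuous_iff_continuousAt]
  intro y
  obtain ⟨u, hu⟩ := cx_exists y.2
  have h1 : Continuous (fun z : Cx => ∑ v ∈ st u, z.1 v • G v) := by
    refine continuous_finsetSum _ fun v _ => ?_
    exact ((continuous_apply v).comp continuous_subtype_val).smul continuous_const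
  refine h1.continuousAt.congr ?_
  have h2 : Continuous (fun z : Cx => z.1 u) := (continuous_apply u).comp continuous_subtype_val
  have h3 : ∀ᶠ z : Cx in 𝓝 y, z.1 u ≠ 0 := h2.continuousAt.eventually_ne hu
  filter_upwards [h3] with z hz
  exact (lin_eq G (fun v hv => cx_supp z.2 hz hv)).symm

lemma isPreconnected_seg {y z : V → ℝ} (hy : y ∈ Cx) (hz : z ∈ Cx) (h : Cmp y z) :
    IsPreconnected (Subtype.val ⁻¹' segment ℝ y z : Set Cx) := by
  rw [← IsInducing.subtypeVal.isPreconnected_image, Subtype.image_preimage_coe,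
    inter_eq_self_of_subset_right (seg_mem hy hz h)]
  exact (convex_segment y z).isPreconnected

instance : LocallyCompactSpace Cx := by
  have : WeaklyLocallyCompactSpace Cx := by
    constructor
    intro y
    obtain ⟨u, hu⟩ := cx_exists y.2
    have hu' : 0 < y.1 u := lt_of_le_of_ne (cx_nonneg y.2 u) (Ne.symm hu)
    refine ⟨Subtype.val ⁻¹' {z : V → ℝ | y.1 u / 2 ≤ z u}, ?_, ?_⟩
    · refine isCompact_of_closed (isClosed_le continuous_const (continuous_apply u)) ?_
      rintro z hz rfl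
      have : y.1 u / 2 ≤ 0 := hz
      linarith
    · have h2 : Continuous (fun z : Cx => z.1 u) :=
        (continuous_apply u).comp continuous_subtype_val
      have h3 : ∀ᶠ z : Cx in 𝓝 y, y.1 u / 2 < z.1 u :=
        h2.continuousAt.eventually_const_lt (by simp only; linarith)
      filter_upwards [h3] with z hz
      exact hz.le
  infer_instance

instance : LocallyConnectedSpace Cx := by
  rw [locallyConnectedSpace_iff_connected_subsets]
  intro y W hW
  obtain ⟨W0, hW0, hW0'⟩ := mem_nhds_subtype _ _ _ |>.mp hW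
  obtain ⟨W1, ⟨hW1, hconv⟩, hW1'⟩ :=
    (LocallyConvexSpace.convex_basis (𝕜 := ℝ) y.1).mem_iff.mp hW0
  obtain ⟨u, hu⟩ := cx_exists y.2
  let O : Set (V → ℝ) := ⋂ v ∈ {v : V | v ∈ st u ∧ y.1 v ≠ 0}, {z | 0 < z v}
  have hO : O ∈ 𝓝 y.1 := by
    classical
    refine IsOpen.mem_nhds ?_ ?_
    · exact Set.Finite.isOpen_biInter ((st u).finite_toSet.subset fun v hv => hv.1)
        fun v _ => isOpen_lt continuous_const (continuous_apply v)
    · simp only [O, mem_iInter]
      rintro v ⟨_, hv⟩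
      exact lt_of_le_of_ne (cx_nonneg y.2 v) (Ne.symm hv)
  have hOconv : Convex ℝ O := by
    refine convex_iInter₂ fun v _ => ?_
    exact convex_halfSpace_gt (f := fun z : V → ℝ => z v) ⟨fun _ _ => rfl, fun _ _ => rfl⟩ 0
  refine ⟨Subtype.val ⁻¹' (W1 ∩ O), ?_, ?_, ?_⟩
  · exact continuous_subtype_val.continuousAt.preimage_mem_nhds (inter_mem hW1 hO)
  · refine isPreconnected_of_forall y ?_
    intro z hz
    have hyz : Cmp y.1 z.1 := by
      have hsub : ∀ v, y.1 v ≠ 0 → z.1 v ≠ 0 := by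
        intro v hv
        have := hz.2
        simp only [O, mem_iInter] at this
        exact (this v ⟨cx_supp y.2 hu hv, hv⟩).ne'
      intro a b ha hb
      exact cx_supp z.2 (ha.elim (hsub a) id) (hb.elim (hsub b) id)
    refine ⟨Subtype.val ⁻¹' segment ℝ y.1 z.1, ?_, left_mem_segment ℝ _ _,
      right_mem_segment ℝ _ _, isPreconnected_seg y.2 z.2 hyz⟩
    exact preimage_mono ((hconv.inter hOconv).segment_subset
      ⟨mem_of_mem_nhds hW1, mem_of_mem_nhds hO⟩ hz)
  · exact (preimage_mono (inter_subset_left.trans hW1')).trans hW0'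

/-- Finite subcomplexes are compact. -/
lemma isCompact_fin (F : Finset V) : IsCompact {y : Cx | ∀ v, y.1 v ≠ 0 → v ∈ F} := by
  have hc : IsClosed ((⋂ v, ⋂ (_ : v ∉ F), {y : V → ℝ | y v = 0}) ∩
      {y : V → ℝ | ∑ v ∈ F, y v = 1}) := by
    refine IsClosed.inter ?_ ?_
    · exact isClosed_iInter fun v => isClosed_iInter fun _ =>
        isClosed_eq (continuous_apply v) continuous_const
    · exact isClosed_eq (by fun_prop) continuous_const
  have h := isCompact_of_closed hc (by
    rintro y ⟨_, h⟩ rfl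
    simp at h)
  convert h using 1
  ext y
  simp only [mem_ofPred_eq, mem_preimage, mem_inter_iff, mem_iInter]
  constructor
  · intro h
    exact ⟨fun v hv => by_contra fun hn => hv (h v hn), cx_sum y.2 h⟩
  · rintro ⟨h, _⟩ v hv
    by_contra hn
    exact hv (h v hn)

end Pool.Agent.Lib.MP_e17db7_gt
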