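import Pool.Agent.Lib.MP_e17db7_gt.Topo
import Pool.Agent.Lib.MP_e17db7_gt.Family
import Pool.Agent.Lib.MP_e17db7_gt.Realize
import Pool.Agent.Lib.MP_e17db7_gt.Annulus

/-!
# The functions on the product of the complex and the square
-/

set_option linter.unusedVariables false
set_option linter.style.haveILetI false

namespace Pool.Agent.Lib.MP_e17db7_gt

open Vtx Set Filter Topology NNReal

/-- The extension of the norm. -/
noncomputable def nr (y : V → ℝ) : ℝ := lin (fun v => (nrm v : ℝ)) y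

/-- The extension of the scale. -/
noncomputable def Lr (y : V → ℝ) : ℝ := lin (fun v => (L v : ℝ)) y

/-- The extension of the distance to the spine. -/
noncomputable def Strip.δr (S : Strip) (y : V → ℝ) : ℝ := lin (fun v => (S.δ v : ℝ)) y

/-- The extension of the centre. -/
noncomputable def Strip.ηr (S : Strip) (y : V → ℝ) : ℝ × ℝ := lin S.η y

lemma abs_cast_le {a b c : ℕ} (h1 : a ≤ b + c) (h2 : b ≤ a + c) :
    dist (a : ℝ) (b : ℝ) ≤ c := by
  have h1' : (a : ℝ) ≤ b + c := by exact_mod_cast h1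
  have h2' : (b : ℝ) ≤ a + c := by exact_mod_cast h2
  rw [Real.dist_eq, abs_le]
  constructor <;> linarith

section comparison

variable {y : V → ℝ} {u : V}

lemma nr_close (hy : y ∈ Cx) (hu : y u ≠ 0) : |nr y - nrm u| ≤ 1 := by
  have := lin_dist (fun v => (nrm v : ℝ)) hy hu (c := 1) (fun w hw => by
    have h := d_of_mem_st hw
    have h1 := nrm_le u w
    have h2 := nrm_le w u
    rw [d_comm] at h2
    exact_mod_cast abs_cast_le (c := 1) (show nrm w ≤ nrm u + 1 by omega) (by omega))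
  rwa [Real.dist_eq] at this

lemma Lr_close (hy : y ∈ Cx) (hu : y u ≠ 0) : |Lr y - L u| ≤ 1 := by
  have := lin_dist (fun v => (L v : ℝ)) hy hu (c := 1) (fun w hw => by
    have h := d_of_mem_st hw
    have h1 := L_le u w
    have h2 := L_le w u
    rw [d_comm] at h2
    exact_mod_cast abs_cast_le (c := 1) (show L w ≤ L u + 1 by omega) (by omega))
  rwa [Real.dist_eq] at this

lemma δr_close (S : Strip) (hy : y ∈ Cx) (hu : y u ≠ 0) : |S.δr y - S.δ u| ≤ 1 := by
  have := lin_dist (fun v => (S.δ v : ℝ)) hy hu (c := 1) (fun w hw => by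
    have h := d_of_mem_st hw
    have h1 := S.δ_lip u w
    have h2 := S.δ_lip w u
    rw [d_comm] at h2
    exact_mod_cast abs_cast_le (c := 1) (show S.δ w ≤ S.δ u + 1 by omega) (by omega))
  rwa [Real.dist_eq] at this

lemma L_pos' (u : V) : (0 : ℝ) < L u := by exact_mod_cast L_pos u

lemma ηr_close (S : Strip) (hy : y ∈ Cx) (hu : y u ≠ 0) : L u * dist (S.ηr y) (S.η u) ≤ 5 := by
  have := lin_dist S.η hy hu (c := 5 / L u) (fun w hw => by
    rw [le_div_iff₀ (L_pos' u), mul_comm, dist_comm]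
    exact S.η_edge (d_of_mem_st hw))
  rwa [le_div_iff₀ (L_pos' u), mul_comm] at this

lemma ηr_mem (S : Strip) (hy : y ∈ Cx) : S.ηr y ∈ Sq :=
  lin_mem (convex_Icc _ _) S.η hy (fun v _ => S.η_mem v)

lemma nr_nonneg (hy : y ∈ Cx) : 0 ≤ nr y :=
  lin_mem (convex_Ici 0) (fun v => (nrm v : ℝ)) hy (fun v _ => mem_Ici.mpr (Nat.cast_nonneg _))

lemma Lr_pos (hy : y ∈ Cx) : 0 < Lr y :=
  lin_mem (convex_Ioi 0) (fun v => (L v : ℝ)) hy (fun v _ => mem_Ioi.mpr (L_pos' v))

lemma δr_nonneg (S : Strip) (hy : y ∈ Cx) : 0 ≤ S.δr y :=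
  lin_mem (convex_Ici 0) (fun v => (S.δ v : ℝ)) hy
    (fun v _ => mem_Ici.mpr (Nat.cast_nonneg _))

lemma Lr_ge (hy : y ∈ Cx) : (nr y - 1) / 4 ≤ Lr y := by
  obtain ⟨u, hu, hu'⟩ := exists_le (fun v => (L v : ℝ)) hy
  have h1 := nr_close hy hu
  rw [abs_le] at h1
  have h2 : (nrm u : ℝ) ≤ 4 * L u := by
    have : nrm u ≤ 4 * L u := by unfold L; omega
    exact_mod_cast this
  have h3 : (L u : ℝ) ≤ Lr y := hu'
  linarith [h1.1, h1.2]

end comparison

/-- The underlying space. -/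
abbrev UU : Type := Cx × Sq

/-- The function of a strip. -/
noncomputable def Strip.F (S : Strip) (p : UU) : ℝ :=
  max (S.δr p.1.1) (Lr p.1.1 * dist p.2.1 (S.ηr p.1.1))

lemma Strip.F_nonneg (S : Strip) (p : UU) : 0 ≤ S.F p :=
  le_max_of_le_left (δr_nonneg S p.1.2)

/-- The function of a strip, with values in the half-line. -/
noncomputable def Strip.G (S : Strip) (p : UU) : ℝ≥0 := ⟨S.F p, S.F_nonneg p⟩

lemma Strip.continuous_δr (S : Strip) : Continuous (fun y : Cx => S.δr y.1) := continuous_lin _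

lemma Strip.continuous_ηr (S : Strip) : Continuous (fun y : Cx => S.ηr y.1) := continuous_lin _

lemma continuous_nr : Continuous (fun y : Cx => nr y.1) := continuous_lin _

lemma continuous_Lr : Continuous (fun y : Cx => Lr y.1) := continuous_lin _

lemma Strip.continuous_F (S : Strip) : Continuous S.F := by
  refine (S.continuous_δr.comp continuous_fst).max
    ((continuous_Lr.comp continuous_fst).mul ?_)
  exact (continuous_subtype_val.comp continuous_snd).dist (S.continuous_ηr.comp continuous_fst)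

lemma Strip.continuous_G (S : Strip) : Continuous S.G :=
  S.continuous_F.subtype_mk _

lemma F_le_f (S : Strip) {p : UU} {u : V} (hu : p.1.1 u ≠ 0) : S.F p ≤ S.f u p.2.1 + 6 := by
  have h1 := δr_close S p.1.2 hu
  have h2 := Lr_close p.1.2 hu
  have h3 := ηr_close S p.1.2 hu
  have h4 := sq_dist p.2.2 (ηr_mem S p.1.2)
  have h5 : (S.δ u : ℝ) ≤ S.f u p.2.1 := le_max_left _ _
  have h6 : L u * dist p.2.1 (S.η u) ≤ S.f u p.2.1 := le_max_right _ _
  rw [abs_le] at h1 h2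
  apply max_le
  · linarith [h1.1, h1.2]
  · have h7 : dist p.2.1 (S.ηr p.1.1) ≤ dist p.2.1 (S.η u) + dist (S.ηr p.1.1) (S.η u) := by
      rw [dist_comm (S.ηr p.1.1)]; exact dist_triangle _ _ _
    calc Lr p.1.1 * dist p.2.1 (S.ηr p.1.1) ≤ (L u + 1) * dist p.2.1 (S.ηr p.1.1) :=
          mul_le_mul_of_nonneg_right (by linarith [h2.2]) dist_nonneg
      _ = L u * dist p.2.1 (S.ηr p.1.1) + dist p.2.1 (S.ηr p.1.1) := by ring
      _ ≤ L u * (dist p.2.1 (S.η u) + dist (S.ηr p.1.1) (S.η u)) + 1 :=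
          add_le_add (mul_le_mul_of_nonneg_left h7 (L_pos' u).le) h4
      _ ≤ S.f u p.2.1 + 6 := by nlinarith

lemma f_le_F (S : Strip) {p : UU} {u : V} (hu : p.1.1 u ≠ 0) : S.f u p.2.1 ≤ S.F p + 6 := by
  have h1 := δr_close S p.1.2 hu
  have h2 := Lr_close p.1.2 hu
  have h3 := ηr_close S p.1.2 hu
  have h4 := sq_dist p.2.2 (ηr_mem S p.1.2)
  have h5 : S.δr p.1.1 ≤ S.F p := le_max_left _ _
  have h6 : Lr p.1.1 * dist p.2.1 (S.ηr p.1.1) ≤ S.F p := le_max_right _ _
  rw [abs_le] at h1 h2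
  apply max_le
  · linarith [h1.1, h1.2]
  · have h7 : dist p.2.1 (S.η u) ≤ dist p.2.1 (S.ηr p.1.1) + dist (S.ηr p.1.1) (S.η u) :=
      dist_triangle _ _ _
    calc L u * dist p.2.1 (S.η u)
        ≤ L u * (dist p.2.1 (S.ηr p.1.1) + dist (S.ηr p.1.1) (S.η u)) :=
          mul_le_mul_of_nonneg_left h7 (L_pos' u).le
      _ = L u * dist p.2.1 (S.ηr p.1.1) + L u * dist (S.ηr p.1.1) (S.η u) := by ring
      _ ≤ (Lr p.1.1 + 1) * dist p.2.1 (S.ηr p.1.1) + 5 :=
          add_le_add (mul_le_mul_of_nonneg_right (by linarith [h2.1]) dist_nonneg) h3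
      _ ≤ S.F p + 6 := by nlinarith

instance : CompactSpace Sq := isCompact_iff_compactSpace.mp isCompact_Icc

instance : LocallyConnectedSpace Sq := by
  have := (convex_Icc (0 : ℝ × ℝ) 1).locallyPathConnectedSpace
  infer_instance

lemma isCompact_finU (F : Finset V) : IsCompact {p : UU | ∀ v, p.1.1 v ≠ 0 → v ∈ F} := by
  have := (isCompact_fin F).prod (isCompact_univ (X := Sq))
  convert this using 1
  ext p
  simp

lemma isCompact_nr (R : ℝ) : ∃ K : Set UU, IsCompact K ∧ ∀ p : UU, nr p.1.1 ≤ R → p ∈ K := by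
  obtain ⟨n, hn⟩ := exists_nat_gt (R + 1)
  refine ⟨_, isCompact_finU (finite_nrm_le n).toFinset, fun p hp v hv => ?_⟩
  rw [Set.Finite.mem_toFinset]
  have := nr_close p.1.2 hv
  rw [abs_le] at this
  have h : (nrm v : ℝ) ≤ n := by linarith [this.1, this.2]
  show nrm v ≤ n
  exact_mod_cast h

lemma exists_bound {K : Set UU} (hK : IsCompact K) : ∃ R : ℝ, ∀ p ∈ K, nr p.1.1 ≤ R := by
  obtain ⟨R, hR⟩ := hK.exists_bound_of_continuousOn
    (continuous_nr.comp continuous_fst).continuousOn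
  exact ⟨R, fun p hp => (le_abs_self _).trans (hR p hp)⟩

lemma ad_of_below {S S' : Strip} (h : Below S' S) (m : ℝ≥0) :
    ∃ K : Set UU, IsCompact K ∧ ∀ p, S.G p ≤ m → S'.G p ≤ m → p ∈ K := by
  obtain ⟨n, hn⟩ := exists_nat_gt ((m : ℝ) + 6)
  have hfin := S.ad S' h.1 h.2.1 h.2.2 n
  refine ⟨_, isCompact_finU hfin.toFinset, fun p h1 h2 v hv => ?_⟩
  rw [Set.Finite.mem_toFinset]
  have h1' : S.F p ≤ m := h1
  have h2' : S'.F p ≤ m := h2
  have h3 := f_le_F S hv
  have h4 := f_le_F S' hv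
  exact ⟨p.2.1, p.2.2, by linarith, by linarith⟩

/-- Being joined by a connected subset. -/
def Jn (W : Set Cx) (y z : Cx) : Prop := ∃ T ⊆ W, IsPreconnected T ∧ y ∈ T ∧ z ∈ T

lemma Jn.symm {W : Set Cx} {y z : Cx} (h : Jn W y z) : Jn W z y := by
  obtain ⟨T, h1, h2, h3, h4⟩ := h
  exact ⟨T, h1, h2, h4, h3⟩

lemma Jn.trans {W : Set Cx} {y z w : Cx} (h : Jn W y z) (h' : Jn W z w) : Jn W y w := by
  obtain ⟨T, h1, h2, h3, h4⟩ := h
  obtain ⟨T', h1', h2', h3', h4'⟩ := h'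
  exact ⟨T ∪ T', union_subset h1 h1', h2.union z h4 h3' h2', Or.inl h3, Or.inr h4'⟩

lemma Jn.refl {W : Set Cx} {y : Cx} (h : y ∈ W) : Jn W y y :=
  ⟨{y}, singleton_subset_iff.mpr h, isPreconnected_singleton, rfl, rfl⟩

/-- The vertices as points of the complex. -/
noncomputable def pt (u : V) : Cx := ⟨Pi.single u 1, single_mem u⟩

/-- The open set in which we look for components. -/
def WW (S : Strip) (b R : ℝ) : Set Cx := {y | S.δr y.1 < b ∧ R < nr y.1}

lemma isOpen_WW (S : Strip) (b R : ℝ) : IsOpen (WW S b R) :=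
  (isOpen_lt S.continuous_δr continuous_const).inter (isOpen_lt continuous_const continuous_nr)

lemma pt_mem {S : Strip} {b R : ℝ} {u : V} : pt u ∈ WW S b R ↔ (S.δ u : ℝ) < b ∧ R < nrm u := by
  show (S.δr (Pi.single u 1) < b ∧ R < nr (Pi.single u 1)) ↔ _
  rw [Strip.δr, nr, lin_single, lin_single]

lemma jn_seg {S : Strip} {b R : ℝ} {y z : Cx} (hy : y ∈ WW S b R) (hz : z ∈ WW S b R)
    (h : Cmp y.1 z.1) : Jn (WW S b R) y z := by
  refine ⟨Subtype.val ⁻¹' segment ℝ y.1 z.1, ?_, isPreconnected_seg y.2 z.2 h,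
    left_mem_segment ℝ _ _, right_mem_segment ℝ _ _⟩
  rintro w ⟨α, β, hα, hβ, hαβ, e⟩
  refine ⟨?_, ?_⟩
  · show S.δr w.1 < b
    rw [← e, Strip.δr, lin_add _ y.2 z.2 h]
    exact (convex_Iio b) (mem_Iio.mpr hy.1) (mem_Iio.mpr hz.1) hα hβ hαβ
  · show R < nr w.1
    rw [← e, nr, lin_add _ y.2 z.2 h]
    exact (convex_Ioi R) (mem_Ioi.mpr hy.2) (mem_Ioi.mpr hz.2) hα hβ hαβ

lemma jn_adj {S : Strip} {b R : ℝ} {u v : V} (hu : pt u ∈ WW S b R) (hv : pt v ∈ WW S b R)
    (h : Gm.Adj u v) : Jn (WW S b R) (pt u) (pt v) := by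
  refine jn_seg hu hv ?_
  have key : ∀ a, ((Pi.single u 1 : V → ℝ) a ≠ 0 ∨ (Pi.single v 1 : V → ℝ) a ≠ 0) →
      a = u ∨ a = v := fun a ha => ha.imp single_ne single_ne
  intro a c ha hc
  rcases key a ha with rfl | rfl <;> rcases key c hc with rfl | rfl
  · exact mem_st_self _
  · exact mem_st.mpr (Or.inr h)
  · exact mem_st.mpr (Or.inr h.symm)
  · exact mem_st_self _

lemma jn_walk (S : Strip) {b R : ℝ} {a p : V} (w : Gm.Walk a p) (hp : p ∈ S.spine)
    (hb : (w.length : ℝ) < b) (hR : R + w.length < nrm a) :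
    Jn (WW S b R) (pt a) (pt p) := by
  induction w with
  | nil =>
    refine Jn.refl (pt_mem.mpr ⟨?_, ?_⟩)
    · rw [S.δ_spine hp]; simpa using hb
    · simpa using hR
  | cons h q ih =>
    rename_i a c p
    rw [SimpleGraph.Walk.length_cons] at hb hR
    push_cast at hb hR
    have h1 : nrm a ≤ nrm c + 1 := by
      have := nrm_le c a
      rw [d_comm, d_adj h] at this
      exact this
    have h1' : (nrm a : ℝ) ≤ nrm c + 1 := by exact_mod_cast h1
    have h2 : (S.δ c : ℝ) ≤ q.length := by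
      have : S.δ c ≤ q.length := (S.δ_le c hp).trans (SimpleGraph.dist_le q)
      exact_mod_cast this
    have h3 : (S.δ a : ℝ) ≤ q.length + 1 := by
      have : S.δ a ≤ (SimpleGraph.Walk.cons h q).length :=
        (S.δ_le a hp).trans (SimpleGraph.dist_le _)
      rw [SimpleGraph.Walk.length_cons] at this
      exact_mod_cast this
    refine (jn_adj (pt_mem.mpr ⟨by linarith, ?_⟩) (pt_mem.mpr ⟨by linarith, ?_⟩) h).trans
      (ih hp (by linarith) (by linarith))
    · have : (0 : ℝ) ≤ q.length := by positivity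
      linarith
    · have : (0 : ℝ) ≤ q.length := by positivity
      linarith

lemma two_le_N (v : V) : 2 ≤ v.1.N := by
  obtain ⟨v, hv⟩ := v
  cases v with
  | hub c => simp [N]
  | road v c' j =>
    obtain ⟨_, _, h3, _⟩ := hv
    simp only [N]; omega

lemma jn_spine (S : Strip) {b R : ℝ} (hb : 0 < b) {n0 : ℕ}
    (hn : ∀ v : V, n0 ≤ v.1.label.length → R < nrm v) {p : V} (hp : p ∈ S.spine)
    (hl : n0 ≤ p.1.label.length) : Jn (WW S b R) (pt p) (pt (hubV (res S.ξ n0))) := by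
  have hmem : ∀ q ∈ S.spine, n0 ≤ q.1.label.length → pt q ∈ WW S b R := by
    intro q hq hq'
    refine pt_mem.mpr ⟨?_, hn q hq'⟩
    rw [S.δ_spine hq]; simpa using hb
  have hub : ∀ n, n0 ≤ n → Jn (WW S b R) (pt (hubV (res S.ξ n))) (pt (hubV (res S.ξ n0))) := by
    intro n hn'
    have hlab : ∀ m, (hubV (res S.ξ m)).1.label.length = m := fun m => res_length S.ξ m
    induction n, hn' using Nat.le_induction with
    | base => exact Jn.refl (hmem _ (S.hub_mem _) (hlab _).ge)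
    | succ n hn' ih =>
      refine (jn_adj (hmem _ (S.hub_mem _) ?_) (hmem _ (S.hub_mem n) ?_) ?_).trans ih
      · rw [hlab]; omega
      · rw [hlab]; exact hn'
      · refine (adj_of_step ?_).symm
        show Step (Vtx.hub (res S.ξ n)) (Vtx.hub (res S.ξ (n + 1)))
        rw [res_succ]
        exact Step.tree _ _
  have road : ∀ k j (hv : (Vtx.road (S.v k).1 (res S.ξ (S.v k).1.N) j).Valid),
      n0 ≤ (S.v k).1.N → Jn (WW S b R) (pt ⟨_, hv⟩) (pt (hubV (res S.ξ n0))) := by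
    intro k j hv hN
    obtain ⟨h1, h2, h3, h4⟩ := hv
    have hin : ∀ j (hv : (Vtx.road (S.v k).1 (res S.ξ (S.v k).1.N) j).Valid),
        pt ⟨_, hv⟩ ∈ WW S b R := by
      intro j hv
      refine hmem _ (Or.inr (Or.inr ⟨k, j, rfl⟩)) ?_
      show n0 ≤ (res S.ξ (S.v k).1.N).length
      rw [res_length]; exact hN
    induction j, h3 using Nat.le_induction with
    | base =>
      refine (jn_adj (hin _ _) (hmem _ (S.hub_mem (S.v k).1.N) ?_) ?_).trans
        (hub (S.v k).1.N hN)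
      · show n0 ≤ (res S.ξ (S.v k).1.N).length
        rw [res_length]; exact hN
      · refine (adj_of_step ?_).symm
        exact Step.start _ _ h2
    | succ j hj ih =>
      refine (jn_adj (hin _ _) (hin j ⟨h1, h2, hj, by omega⟩) ?_).trans (ih (by omega))
      exact (adj_of_step (Step.along _ _ j h2 hj h4)).symm
  rcases hp with ⟨n, hn'⟩ | ⟨k, rfl⟩ | ⟨k, j, hj⟩
  · have e : p = hubV (res S.ξ n) := Subtype.ext hn'
    subst e
    refine hub n ?_
    have : n0 ≤ (res S.ξ n).length := hl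
    rwa [res_length] at this
  · have hN : n0 ≤ (S.v k).1.N := hl.trans (label_length_lt _).le
    have h2 := two_le_N (S.v k)
    have hv : (Vtx.road (S.v k).1 (res S.ξ (S.v k).1.N) ((S.v k).1.N - 1)).Valid :=
      ⟨(S.v k).2, res_length _ _, by omega, by omega⟩
    refine (jn_adj (hmem _ (S.v_mem k) hl) (hmem ⟨_, hv⟩ (Or.inr (Or.inr ⟨k, _, rfl⟩)) ?_)
      ?_).trans (road k _ hv hN)
    · show n0 ≤ (res S.ξ (S.v k).1.N).length
      rw [res_length]; exact hN
    · exact (adj_of_step (Step.stop _ _ (res_length _ _))).symm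
  · obtain ⟨p, hv⟩ := p
    simp only at hj
    subst hj
    refine road k j hv ?_
    have : n0 ≤ (res S.ξ (S.v k).1.N).length := hl
    rwa [res_length] at this

/-- Far out, the set is in one component. -/
lemma component (S : Strip) {b : ℝ} (hb : 0 < b) (R : ℝ) :
    ∃ z ∈ WW S b R, ∃ R' : ℝ, ∀ y : Cx, S.δr y.1 < b → R' < nr y.1 →
      y ∈ connectedComponentIn (WW S b R) z := by
  obtain ⟨r, hr⟩ := exists_nat_gt R
  obtain ⟨B, hB⟩ := exists_nat_gt b
  obtain ⟨n0, hn0⟩ : ∃ n0, ∀ v : V, n0 ≤ v.1.label.length → R < nrm v := by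
    obtain ⟨M, hM⟩ := ((finite_nrm_le r).image (fun v => v.1.label.length)).bddAbove
    refine ⟨M + 1, fun v hv => ?_⟩
    by_contra hcon
    have h1 : nrm v ≤ r := by
      have : (nrm v : ℝ) ≤ r := by linarith
      exact_mod_cast this
    have h2 : v.1.label.length ≤ M := hM ⟨v, h1, rfl⟩
    omega
  obtain ⟨M, hM⟩ : ∃ M : ℕ, ∀ u : V, M < nrm u → r + B < nrm u ∧
      ∀ p : V, d u p ≤ B → n0 < p.1.label.length := by
    obtain ⟨M, hM⟩ := ((Strip.finite_label_ball n0 B).image nrm).bddAbove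
    refine ⟨M + (r + B), fun u hu => ⟨by omega, fun p hp => ?_⟩⟩
    by_contra hcon
    have := hM ⟨u, ⟨p, not_lt.mp hcon, hp⟩, rfl⟩
    omega
  have hz : pt (hubV (res S.ξ n0)) ∈ WW S b R := by
    refine pt_mem.mpr ⟨?_, hn0 _ (res_length S.ξ n0).ge⟩
    rw [S.δ_spine (S.hub_mem n0)]; simpa using hb
  refine ⟨_, hz, max R (M + 1), fun y hy1 hy2 => ?_⟩
  have hy2' := (le_max_left _ _).trans_lt hy2
  have hy2'' := (le_max_right _ _).trans_lt hy2
  obtain ⟨u, hu, hu'⟩ := exists_le (fun v => (S.δ v : ℝ)) y.2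
  have hδu : (S.δ u : ℝ) < b := lt_of_le_of_lt hu' hy1
  have h1 := nr_close y.2 hu
  rw [abs_le] at h1
  have hMu : M < nrm u := by
    have : (M : ℝ) < nrm u := by linarith [h1.1, h1.2]
    exact_mod_cast this
  obtain ⟨h3, h4⟩ := hM u hMu
  have h3' : (r : ℝ) + B < nrm u := by exact_mod_cast h3
  have hB' : (0 : ℝ) ≤ B := by positivity
  have hyW : y ∈ WW S b R := ⟨hy1, hy2'⟩
  have huW : pt u ∈ WW S b R := pt_mem.mpr ⟨hδu, by linarith⟩
  have j1 : Jn (WW S b R) y (pt u) := by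
    refine jn_seg hyW huW ?_
    have key : ∀ a, (y.1 a ≠ 0 ∨ (Pi.single u 1 : V → ℝ) a ≠ 0) → y.1 a ≠ 0 := by
      intro a ha
      rcases ha with ha | ha
      · exact ha
      · rw [single_ne ha]; exact hu
    intro a c ha hc
    exact cx_supp y.2 (key a ha) (key c hc)
  obtain ⟨p, hp, hdp⟩ := S.exists_δ u
  obtain ⟨w, hw⟩ := exists_walk u p
  have hw' : (w.length : ℝ) = S.δ u := by rw [hw, hdp]
  have j2 : Jn (WW S b R) (pt u) (pt p) := jn_walk S w hp (by rw [hw']; exact hδu)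
    (by rw [hw']; linarith)
  have hdB : d u p ≤ B := by
    have : (S.δ u : ℝ) ≤ B := by linarith
    rw [hdp]
    exact_mod_cast this
  have j3 := jn_spine S hb hn0 hp (h4 p hdB).le
  obtain ⟨T, hT1, hT2, hT3, hT4⟩ := ((j1.trans j2).trans j3).symm
  exact (hT2.subset_connectedComponentIn hT3 hT1) hT4

lemma G_dist (S : Strip) (p : UU) (s : ℝ≥0) (ε : ℝ) :
    dist (S.G p) s < ε ↔ (s : ℝ) - ε < S.F p ∧ S.F p < s + ε := by
  rw [NNReal.dist_eq]
  show |S.F p - s| < ε ↔ _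
  rw [abs_lt]
  constructor
  · rintro ⟨h1, h2⟩; constructor <;> linarith
  · rintro ⟨h1, h2⟩; constructor <;> linarith

/-- The fibres. -/
lemma fibre (S : Strip) {y : Cx} {a b : ℝ} (hb : 0 < b) (hab : a < b) (hδ : S.δr y.1 < b)
    (hL : 2 * b ≤ Lr y.1) :
    (∃ x : Sq, a < S.F (y, x) ∧ S.F (y, x) < b) ∧
      IsPreconnected {x : Sq | a < S.F (y, x) ∧ S.F (y, x) < b} := by
  have hLp := Lr_pos y.2
  have hr2 : b / Lr y.1 ≤ 1 / 2 := by
    rw [div_le_iff₀ hLp]; linarith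
  obtain ⟨a', ha'b, ha'⟩ : ∃ a' < b, ∀ t : ℝ, 0 ≤ t →
      ((a < max (S.δr y.1) t ∧ max (S.δr y.1) t < b) ↔ (a' < t ∧ t < b)) := by
    by_cases h : a < S.δr y.1
    · refine ⟨-1, by linarith, fun t ht => ⟨fun h' => ⟨by linarith, ?_⟩, fun h' => ⟨?_, ?_⟩⟩⟩
      · exact (le_max_right _ _).trans_lt h'.2
      · exact lt_max_of_lt_left h
      · exact max_lt hδ h'.2
    · refine ⟨a, hab, fun t ht => ⟨fun h' => ⟨?_, ?_⟩, fun h' => ⟨?_, ?_⟩⟩⟩
      · rcases lt_max_iff.mp h'.1 with h'' | h''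
        · exact absurd h'' h
        · exact h''
      · exact (le_max_right _ _).trans_lt h'.2
      · exact lt_max_of_lt_right h'.1
      · exact max_lt hδ h'.2
  have hiff : ∀ x : Sq, (a < S.F (y, x) ∧ S.F (y, x) < b) ↔
      (a' / Lr y.1 < dist x.1 (S.ηr y.1) ∧ dist x.1 (S.ηr y.1) < b / Lr y.1) := by
    intro x
    have h := ha' (Lr y.1 * dist x.1 (S.ηr y.1)) (by positivity)
    rw [div_lt_iff₀ hLp, lt_div_iff₀ hLp, mul_comm (dist _ _)]
    exact h
  obtain ⟨⟨x, hx, hx'⟩, hpre⟩ := annulus (ηr_mem S y.2) (r1 := a' / Lr y.1)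
    (div_pos hb hLp) (div_lt_div_of_pos_right ha'b hLp) hr2
  refine ⟨⟨⟨x, hx⟩, (hiff ⟨x, hx⟩).mpr hx'⟩, ?_⟩
  have e : {x : Sq | a < S.F (y, x) ∧ S.F (y, x) < b} =
      {x : Sq | a' / Lr y.1 < dist x.1 (S.ηr y.1) ∧ dist x.1 (S.ηr y.1) < b / Lr y.1} := by
    ext x
    exact hiff x
  rw [e]
  exact hpre

lemma shell_conn (S : Strip) (s : ℝ≥0) {ε : ℝ} (hε : 0 < ε) {K : Set UU} (hK : IsCompact K) :
    ∃ K' : Set UU, IsCompact K' ∧ ∃ C : Set UU, IsPreconnected C ∧
      (∃ p, p ∈ C) ∧ (∀ p ∈ C, p ∉ K ∧ dist (S.G p) s < ε) ∧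
      ∀ p, p ∉ K' → dist (S.G p) s < ε → p ∈ C := by
  obtain ⟨R0, hR0⟩ := exists_bound hK
  have hb : 0 < (s : ℝ) + ε := by positivity
  obtain ⟨z, hz, R', hR'⟩ := component S hb (max R0 (8 * (s + ε) + 1))
  obtain ⟨K', hK', hK''⟩ := isCompact_nr R'
  have hsubW := connectedComponentIn_subset (WW S (s + ε) (max R0 (8 * (s + ε) + 1))) z
  have hfib : ∀ y ∈ connectedComponentIn (WW S (s + ε) (max R0 (8 * (s + ε) + 1))) z,
      (∃ x : Sq, s - ε < S.F (y, x) ∧ S.F (y, x) < s + ε) ∧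
      IsPreconnected {x : Sq | s - ε < S.F (y, x) ∧ S.F (y, x) < s + ε} := by
    intro y hy
    have hyW := hsubW hy
    refine fibre S hb (by linarith) hyW.1 ?_
    have h1 := Lr_ge y.2
    have h2 := (le_max_right _ _).trans_lt hyW.2
    linarith
  refine ⟨K', hK', {p | p.1 ∈ connectedComponentIn (WW S (s + ε)
    (max R0 (8 * (s + ε) + 1))) z ∧ (s - ε < S.F p ∧ S.F p < s + ε)}, ?_, ?_, ?_, ?_⟩
  · refine isPreconnected_of_fibres (C0 := connectedComponentIn (WW S (s + ε)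
      (max R0 (8 * (s + ε) + 1))) z) ?_ isPreconnected_connectedComponentIn ?_ ?_ ?_
    · refine (((isOpen_WW S _ _).connectedComponentIn).preimage continuous_fst).inter ?_
      exact (isOpen_lt continuous_const S.continuous_F).inter
        (isOpen_lt S.continuous_F continuous_const)
    · intro p hp; exact hp.1
    · intro y hy
      obtain ⟨x, hx⟩ := (hfib y hy).1
      exact ⟨x, hy, hx⟩
    · intro y hy
      convert (hfib y hy).2 using 1
      ext x
      exact ⟨fun h => h.2, fun h => ⟨hy, h⟩⟩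
  · have hzC := mem_connectedComponentIn hz
    obtain ⟨x, hx⟩ := (hfib z hzC).1
    exact ⟨(z, x), hzC, hx⟩
  · rintro p ⟨hp1, hp2⟩
    refine ⟨fun hpK => ?_, (G_dist S p s ε).mpr hp2⟩
    have h1 := hR0 p hpK
    have h2 := (le_max_left _ _).trans_lt (hsubW hp1).2
    linarith
  · intro p hp hd
    rw [G_dist] at hd
    refine ⟨hR' p.1 ?_ ?_, hd⟩
    · exact (le_max_left _ _).trans_lt hd.2
    · by_contra hcon
      exact hp (hK'' p (not_lt.mp hcon))

/-- The family of functions. -/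
theorem exists_sys : ∃ (I : Type) (_ : Nonempty I) (f : I → UU → ℝ≥0), Sys f := by
  obtain ⟨I, S, hcatch, hbelow⟩ := exists_family
  have hcatch' : ∀ u : ℕ → UU, (∀ K : Set UU, IsCompact K → ∀ᶠ k in atTop, u k ∉ K) →
      ∃ i, ∃ m : ℝ≥0, ∃ᶠ k in atTop, (S i).G (u k) ≤ m := by
    intro u hu
    choose w hw using fun k => cx_exists (u k).1.2
    have ht : Leaves (fun k => (w k, (u k).2.1)) := by
      refine ⟨fun k => (u k).2.2, fun F hF => ?_⟩
      have hF' : (⋃ v ∈ F, ((st v : Finset V) : Set V)).Finite :=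
        hF.biUnion fun v _ => (st v).finite_toSet
      filter_upwards [hu _ (isCompact_finU hF'.toFinset)] with k hk hkF
      apply hk
      intro v hv
      rw [Set.Finite.mem_toFinset, mem_iUnion₂]
      exact ⟨w k, hkF, cx_supp (u k).1.2 (hw k) hv⟩
    obtain ⟨i, C, hC⟩ := hcatch _ ht
    refine ⟨i, Real.toNNReal (C + 6), hC.mono fun k hk => ?_⟩
    have h1 := F_le_f (S i) (hw k)
    have h2 : (S i).F (u k) ≤ C + 6 := by
      have hk' : (S i).f (w k) (u k).2.1 ≤ C := hk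
      linarith
    show (S i).F (u k) ≤ (Real.toNNReal (C + 6) : ℝ)
    exact h2.trans (Real.le_coe_toNNReal _)
  have hsys : Sys (fun i => (S i).G) := by
    refine ⟨fun i => (S i).continuous_G, ?_, hcatch', ?_, ?_⟩
    · intro i j hij m
      rcases hbelow i j hij with h | h
      · obtain ⟨K, hK, hK'⟩ := ad_of_below h m
        exact ⟨K, hK, fun u h1 h2 => hK' u h2 h1⟩
      · obtain ⟨K, hK, hK'⟩ := ad_of_below h m
        exact ⟨K, hK, hK'⟩
    · intro i s ε hε K hK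
      obtain ⟨K', hK', C, hC, _, hC1, hC2⟩ := shell_conn (S i) s hε hK
      exact ⟨ε, hε, K', hK', C, hC, hC1, hC2⟩
    · intro i s ε hε K hK
      obtain ⟨K', hK', C, hC, ⟨p, hp⟩, hC1, hC2⟩ := shell_conn (S i) s hε hK
      exact ⟨p, hC1 p hp⟩
  have hleaves : Leaves (fun k => (hubV (res (fun _ => true) k), 0)) := by
    refine ⟨fun _ => sq_zero, ?_⟩
    intro F hF
    obtain ⟨M, hM⟩ := (hF.image (fun v => v.1.label.length)).bddAbove
    filter_upwards [eventually_gt_atTop M] with k hk hkF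
    have : (res (fun _ => true) k).length ≤ M := hM ⟨_, hkF, rfl⟩
    rw [res_length] at this
    omega
  obtain ⟨i, _⟩ := hcatch _ hleaves
  exact ⟨I, ⟨i⟩, _, hsys⟩

end Pool.Agent.Lib.MP_e17db7_gt
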