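import Pool.Agent.Lib.MP_e17db7_gt.Metric

/-!
# Strips
-/

set_option linter.unusedVariables false

namespace Pool.Agent.Lib.MP_e17db7_gt

open Vtx Set Filter

/-- The restriction of a sequence. -/
def res (ξ : ℕ → Bool) (n : ℕ) : List Bool := (List.range n).map ξ

lemma res_length (ξ : ℕ → Bool) (n : ℕ) : (res ξ n).length = n := by simp [res]

lemma res_get (ξ : ℕ → Bool) {n i : ℕ} (h : i < n) : (res ξ n)[i]? = some (ξ i) := by
  simp [res, h]

lemma res_succ (ξ : ℕ → Bool) (n : ℕ) : res ξ (n + 1) = res ξ n ++ [ξ n] := by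
  simp [res, List.range_succ]

lemma agree_res (ξ : ℕ → Bool) (n : ℕ) : Agree (res ξ n) ξ n :=
  ⟨(res_length ξ n).ge, fun i hi => res_get ξ hi⟩

/-- The square. -/
abbrev Sq : Set (ℝ × ℝ) := Set.Icc 0 1

lemma sq_norm {x : ℝ × ℝ} (hx : x ∈ Sq) : ‖x‖ ≤ 1 := by
  obtain ⟨⟨h1, h2⟩, ⟨h3, h4⟩⟩ := hx
  simp only [Prod.fst_zero, Prod.snd_zero, Prod.fst_one, Prod.snd_one] at h1 h2 h3 h4
  rw [Prod.norm_def, Real.norm_eq_abs, Real.norm_eq_abs, abs_of_nonneg h1, abs_of_nonneg h2]
  exact max_le h3 h4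

lemma sq_dist {x y : ℝ × ℝ} (hx : x ∈ Sq) (hy : y ∈ Sq) : dist x y ≤ 1 := by
  obtain ⟨⟨h1, h2⟩, ⟨h3, h4⟩⟩ := hx
  obtain ⟨⟨g1, g2⟩, ⟨g3, g4⟩⟩ := hy
  simp only [Prod.fst_zero, Prod.snd_zero, Prod.fst_one, Prod.snd_one] at h1 h2 h3 h4 g1 g2 g3 g4
  rw [Prod.dist_eq, Real.dist_eq, Real.dist_eq]
  apply max_le <;> rw [abs_le] <;> constructor <;> linarith

lemma sq_smul {x : ℝ × ℝ} (hx : x ∈ Sq) {r : ℝ} (h0 : 0 ≤ r) (h1 : r ≤ 1) : r • x ∈ Sq := by
  obtain ⟨⟨g1, g2⟩, ⟨g3, g4⟩⟩ := hx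
  simp only [Prod.fst_zero, Prod.snd_zero, Prod.fst_one, Prod.snd_one] at g1 g2 g3 g4
  refine ⟨⟨?_, ?_⟩, ⟨?_, ?_⟩⟩
  · simp only [Prod.fst_zero, Prod.smul_fst, smul_eq_mul]; positivity
  · simp only [Prod.snd_zero, Prod.smul_snd, smul_eq_mul]; positivity
  · simp only [Prod.fst_one, Prod.smul_fst, smul_eq_mul]; exact mul_le_one₀ h1 g1 g3
  · simp only [Prod.snd_one, Prod.smul_snd, smul_eq_mul]; exact mul_le_one₀ h1 g2 g4

lemma sq_zero : (0 : ℝ × ℝ) ∈ Sq := ⟨le_rfl, zero_le_one⟩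

/-- The data of a strip: a branch, a sequence of vertices and a sequence of points of
the square. -/
structure Strip where
  /-- the branch -/
  ξ : ℕ → Bool
  /-- the vertices -/
  v : ℕ → V
  /-- the points -/
  x : ℕ → ℝ × ℝ
  /-- the limits of the labels -/
  lim : ℕ → ℕ → Option Bool
  mem : ∀ k, x k ∈ Sq
  sep : ∀ k l, k ≠ l → L (v k) + L (v l) ≤ d (v k) (v l)
  conv : ∀ i m, ∀ᶠ k in atTop, (tgt^[i] (v k).1).label[m]? = lim i m

namespace Strip

/-- The spine of a strip. -/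
def spine (S : Strip) : Set V :=
  {p | (∃ n, p.1 = hub (res S.ξ n)) ∨ (∃ k, p = S.v k) ∨
    ∃ k j, p.1 = road (S.v k).1 (res S.ξ (S.v k).1.N) j}

lemma hub_mem (S : Strip) (n : ℕ) : hubV (res S.ξ n) ∈ S.spine := Or.inl ⟨n, rfl⟩

lemma v_mem (S : Strip) (k : ℕ) : S.v k ∈ S.spine := Or.inr (Or.inl ⟨k, rfl⟩)

/-- The distance to the spine. -/
noncomputable def δ (S : Strip) (u : V) : ℕ := sInf {n | ∃ p ∈ S.spine, d u p = n}

lemma exists_δ (S : Strip) (u : V) : ∃ p ∈ S.spine, d u p = S.δ u :=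
  Nat.sInf_mem (s := {n | ∃ p ∈ S.spine, d u p = n}) ⟨_, _, S.hub_mem 0, rfl⟩

lemma δ_le (S : Strip) (u : V) {p : V} (hp : p ∈ S.spine) : S.δ u ≤ d u p :=
  Nat.sInf_le ⟨p, hp, rfl⟩

lemma δ_lip (S : Strip) (a b : V) : S.δ b ≤ S.δ a + d a b := by
  obtain ⟨p, hp, h⟩ := S.exists_δ a
  have h1 := S.δ_le b hp
  have h2 := d_triangle b a p
  rw [d_comm b a] at h2
  omega

lemma δ_spine (S : Strip) {p : V} (hp : p ∈ S.spine) : S.δ p = 0 := by
  have := S.δ_le p hp
  rw [d_self] at this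
  omega

open Classical in
/-- The centre of the strip. -/
noncomputable def η (S : Strip) (u : V) : ℝ × ℝ :=
  if h : ∃ k, d u (S.v k) < L (S.v k) then
    (1 - (d u (S.v h.choose) : ℝ) / L (S.v h.choose)) • S.x h.choose
  else 0

lemma uniq (S : Strip) {u : V} {k l : ℕ} (h1 : d u (S.v k) < L (S.v k))
    (h2 : d u (S.v l) < L (S.v l)) : k = l := by
  by_contra h
  have h3 := S.sep k l h
  have h4 := d_triangle (S.v k) u (S.v l)
  rw [d_comm _ u] at h4
  omega

lemma η_eq (S : Strip) {u : V} {k : ℕ} (h : d u (S.v k) < L (S.v k)) :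
    S.η u = (1 - (d u (S.v k) : ℝ) / L (S.v k)) • S.x k := by
  have h' : ∃ k, d u (S.v k) < L (S.v k) := ⟨k, h⟩
  rw [η, dif_pos h', S.uniq h'.choose_spec h]

lemma η_eq_zero (S : Strip) {u : V} (h : ¬ ∃ k, d u (S.v k) < L (S.v k)) : S.η u = 0 := by
  rw [η, dif_neg h]

lemma η_v (S : Strip) (k : ℕ) : S.η (S.v k) = S.x k := by
  rw [S.η_eq (k := k), d_self]
  · simp
  · rw [d_self]; exact L_pos _

lemma coef_mem {u a : V} (h : d u a < L a) :
    0 ≤ 1 - (d u a : ℝ) / L a ∧ 1 - (d u a : ℝ) / L a ≤ 1 := by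
  have h1 : (0 : ℝ) < L a := by exact_mod_cast L_pos a
  have h2 : (d u a : ℝ) ≤ L a := by exact_mod_cast h.le
  constructor
  · rw [sub_nonneg, div_le_one h1]; exact h2
  · have : (0 : ℝ) ≤ (d u a : ℝ) / L a := by positivity
    linarith

lemma η_mem (S : Strip) (u : V) : S.η u ∈ Sq := by
  by_cases h : ∃ k, d u (S.v k) < L (S.v k)
  · obtain ⟨k, hk⟩ := h
    rw [S.η_eq hk]
    exact sq_smul (S.mem k) (coef_mem hk).1 (coef_mem hk).2
  · rw [S.η_eq_zero h]; exact sq_zero

lemma L_le_two {u a : V} (h : d u a < L a) : (L u : ℝ) ≤ 2 * L a := by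
  have h1 := L_le a u
  rw [d_comm] at h1
  have : L u ≤ 2 * L a := by omega
  exact_mod_cast this

lemma η_edge_out (S : Strip) {u w : V} {k : ℕ} (hd : d u w ≤ 1) (h1 : d u (S.v k) < L (S.v k))
    (h2 : ¬ d w (S.v k) < L (S.v k)) : L u * ‖S.η u‖ ≤ 2 := by
  rw [S.η_eq h1, norm_smul, Real.norm_eq_abs, abs_of_nonneg (coef_mem h1).1]
  have hL : (0 : ℝ) < L (S.v k) := by exact_mod_cast L_pos (S.v k)
  have h3 : L (S.v k) ≤ d u (S.v k) + 1 := by
    have := d_triangle w u (S.v k)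
    rw [d_comm w u] at this
    omega
  have h3' : (L (S.v k) : ℝ) ≤ d u (S.v k) + 1 := by exact_mod_cast h3
  have h4 : 1 - (d u (S.v k) : ℝ) / L (S.v k) ≤ 1 / L (S.v k) := by
    rw [one_sub_div hL.ne']
    apply div_le_div_of_nonneg_right _ hL.le
    linarith
  have h5 := L_le_two h1
  have h6 := sq_norm (S.mem k)
  have h7 := (coef_mem h1).1
  calc (L u : ℝ) * ((1 - (d u (S.v k) : ℝ) / L (S.v k)) * ‖S.x k‖)
      ≤ (2 * L (S.v k)) * ((1 / L (S.v k)) * 1) := by
        apply mul_le_mul h5 _ (by positivity) (by positivity)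
        exact mul_le_mul h4 h6 (norm_nonneg _) (by positivity)
    _ = 2 := by field_simp

lemma η_edge (S : Strip) {u w : V} (hd : d u w ≤ 1) : L u * dist (S.η u) (S.η w) ≤ 5 := by
  have hLuw : L u ≤ L w + 1 := by
    have := L_le w u
    rw [d_comm] at this
    omega
  have hLuw' : (L u : ℝ) ≤ L w + 1 := by exact_mod_cast hLuw
  by_cases hsame : ∃ k, d u (S.v k) < L (S.v k) ∧ d w (S.v k) < L (S.v k)
  · obtain ⟨k, h1, h2⟩ := hsame
    have hL : (0 : ℝ) < L (S.v k) := by exact_mod_cast L_pos (S.v k)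
    rw [S.η_eq h1, S.η_eq h2, dist_eq_norm, ← sub_smul, norm_smul, Real.norm_eq_abs]
    have h3 : |(1 - (d u (S.v k) : ℝ) / L (S.v k)) - (1 - (d w (S.v k) : ℝ) / L (S.v k))|
        ≤ 1 / L (S.v k) := by
      have e : (1 - (d u (S.v k) : ℝ) / L (S.v k)) - (1 - (d w (S.v k) : ℝ) / L (S.v k))
        = ((d w (S.v k) : ℝ) - d u (S.v k)) / L (S.v k) := by ring
      rw [e, abs_div, abs_of_pos hL]
      apply div_le_div_of_nonneg_right _ hL.le
      have a1 := d_triangle w u (S.v k)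
      have a2 := d_triangle u w (S.v k)
      rw [d_comm w u] at a1
      have a1' : (d w (S.v k) : ℝ) ≤ 1 + d u (S.v k) := by
        have : d w (S.v k) ≤ 1 + d u (S.v k) := by omega
        exact_mod_cast this
      have a2' : (d u (S.v k) : ℝ) ≤ 1 + d w (S.v k) := by
        have : d u (S.v k) ≤ 1 + d w (S.v k) := by omega
        exact_mod_cast this
      rw [abs_le]; constructor <;> linarith
    calc (L u : ℝ) * (_ * ‖S.x k‖) ≤ (2 * L (S.v k)) * ((1 / L (S.v k)) * 1) := by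
          apply mul_le_mul (L_le_two h1) _ (by positivity) (by positivity)
          exact mul_le_mul h3 (sq_norm (S.mem k)) (norm_nonneg _) (by positivity)
      _ = 2 := by field_simp
      _ ≤ 5 := by norm_num
  · push Not at hsame
    have hu : (L u : ℝ) * ‖S.η u‖ ≤ 2 := by
      by_cases h : ∃ k, d u (S.v k) < L (S.v k)
      · obtain ⟨k, hk⟩ := h
        exact S.η_edge_out hd hk (not_lt.mpr (hsame k hk))
      · rw [S.η_eq_zero h, norm_zero, mul_zero]; norm_num
    have hw : (L w : ℝ) * ‖S.η w‖ ≤ 2 := by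
      by_cases h : ∃ k, d w (S.v k) < L (S.v k)
      · obtain ⟨k, hk⟩ := h
        refine S.η_edge_out (by rw [d_comm]; exact hd) hk (fun h => ?_)
        exact absurd hk (not_lt.mpr (hsame k h))
      · rw [S.η_eq_zero h, norm_zero, mul_zero]; norm_num
    have h1 : dist (S.η u) (S.η w) ≤ ‖S.η u‖ + ‖S.η w‖ := by
      rw [dist_eq_norm]; exact norm_sub_le _ _
    have h2 := sq_norm (S.η_mem w)
    calc (L u : ℝ) * dist (S.η u) (S.η w) ≤ L u * (‖S.η u‖ + ‖S.η w‖) :=
          mul_le_mul_of_nonneg_left h1 (by positivity)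
      _ = L u * ‖S.η u‖ + L u * ‖S.η w‖ := by ring
      _ ≤ 2 + (L w + 1) * ‖S.η w‖ :=
          add_le_add hu (mul_le_mul_of_nonneg_right hLuw' (norm_nonneg _))
      _ ≤ 5 := by nlinarith

/-- The function of a strip. -/
noncomputable def f (S : Strip) (u : V) (x : ℝ × ℝ) : ℝ :=
  max (S.δ u : ℝ) (L u * dist x (S.η u))

lemma f_nonneg (S : Strip) (u : V) (x : ℝ × ℝ) : 0 ≤ S.f u x :=
  le_max_of_le_left (Nat.cast_nonneg _)

lemma f_adj (S : Strip) {u w : V} {x : ℝ × ℝ} (hx : x ∈ Sq) (hd : d u w ≤ 1) :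
    S.f w x ≤ S.f u x + 6 := by
  have h1 := S.δ_lip u w
  have h1' : (S.δ w : ℝ) ≤ S.δ u + 1 := by
    have : S.δ w ≤ S.δ u + 1 := by omega
    exact_mod_cast this
  have h2 : (L w : ℝ) ≤ L u + 1 := by
    have := L_le u w
    have : L w ≤ L u + 1 := by omega
    exact_mod_cast this
  have h3 : (S.δ u : ℝ) ≤ S.f u x := le_max_left _ _
  have h4 : L u * dist x (S.η u) ≤ S.f u x := le_max_right _ _
  apply max_le
  · linarith
  · have h5 : dist x (S.η w) ≤ dist x (S.η u) + dist (S.η w) (S.η u) := by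
      rw [dist_comm (S.η w)]; exact dist_triangle _ _ _
    have h6 := S.η_edge (u := w) (w := u) (by rw [d_comm]; exact hd)
    have h7 := sq_dist hx (S.η_mem u)
    calc (L w : ℝ) * dist x (S.η w) ≤ L w * (dist x (S.η u) + dist (S.η w) (S.η u)) :=
          mul_le_mul_of_nonneg_left h5 (by positivity)
      _ = L w * dist x (S.η u) + L w * dist (S.η w) (S.η u) := by ring
      _ ≤ (L u + 1) * dist x (S.η u) + 5 :=
          add_le_add (mul_le_mul_of_nonneg_right h2 dist_nonneg) h6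
      _ ≤ S.f u x + 6 := by nlinarith

lemma f_dist (S : Strip) (u w : V) {x : ℝ × ℝ} (hx : x ∈ Sq) :
    S.f w x ≤ S.f u x + 6 * d u w := by
  obtain ⟨p, hp⟩ := exists_walk u w
  rw [← hp]
  clear hp
  induction p with
  | nil => simp
  | cons h q ih =>
    rename_i a b c
    have h1 := S.f_adj hx (d_adj h).le
    rw [SimpleGraph.Walk.length_cons]
    push_cast
    linarith

lemma f_x (S : Strip) (u : V) (x x' : ℝ × ℝ) : S.f u x ≤ S.f u x' + L u * dist x x' := by
  have h3 : (S.δ u : ℝ) ≤ S.f u x' := le_max_left _ _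
  have h4 : L u * dist x' (S.η u) ≤ S.f u x' := le_max_right _ _
  have h5 : (0 : ℝ) ≤ L u * dist x x' := by positivity
  apply max_le
  · linarith
  · have h6 := dist_triangle x x' (S.η u)
    have h7 : (0 : ℝ) ≤ L u := by positivity
    nlinarith

lemma f_v (S : Strip) (k : ℕ) : S.f (S.v k) (S.x k) = 0 := by
  rw [f, S.δ_spine (S.v_mem k), S.η_v k]
  simp

lemma le_f_v (S : Strip) (k : ℕ) (x : ℝ × ℝ) : L (S.v k) * dist x (S.x k) ≤ S.f (S.v k) x := by
  have h4 : L (S.v k) * dist x (S.η (S.v k)) ≤ S.f (S.v k) x := le_max_right _ _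
  rwa [S.η_v k] at h4

lemma spine_cases (S : Strip) {p : V} (hp : p ∈ S.spine) (M : ℕ) :
    (∃ k, d p (S.v k) ≤ M) ∨ (p.1.Far M ∧ p.1.label = res S.ξ p.1.label.length) := by
  rcases hp with ⟨n, hn⟩ | ⟨k, rfl⟩ | ⟨k, j, hj⟩
  · right
    rw [hn]
    refine ⟨trivial, ?_⟩
    show res S.ξ n = res S.ξ (res S.ξ n).length
    rw [res_length]
  · left
    exact ⟨k, by rw [d_self]; exact Nat.zero_le _⟩
  · obtain ⟨p, hv⟩ := p
    simp only at hj
    subst hj
    by_cases h : (S.v k).1.N - j ≤ M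
    · left
      exact ⟨k, (d_tgt _ _ _ hv).trans h⟩
    · right
      refine ⟨not_le.mp h, ?_⟩
      show res S.ξ (S.v k).1.N = res S.ξ (res S.ξ (S.v k).1.N).length
      rw [res_length]

lemma finite_label_ball (n m : ℕ) : {u : V | ∃ p : V, p.1.label.length ≤ n ∧ d u p ≤ m}.Finite := by
  have h1 : {p : V | p.1.label.length ≤ n}.Finite := by
    refine Set.Finite.of_finite_image (f := Subtype.val) ((finite_label_le n).subset ?_)
      (Subtype.val_injective.injOn)
    rintro _ ⟨b, hb, rfl⟩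
    exact ⟨b.2, hb⟩
  refine (h1.biUnion fun p _ => finite_ball p m).subset ?_
  rintro u ⟨p, hp, hu⟩
  rw [mem_iUnion₂]
  exact ⟨p, hp, by rw [d_comm] at hu; exact hu⟩

/-- Two strips are almost disjoint. -/
theorem ad (S S' : Strip) (h1 : S.ξ ≠ S'.ξ) (h2 : ∀ i, S'.lim i ≠ fun m => some (S.ξ m))
    (h3 : ∀ C : ℝ, {k | S'.f (S.v k) (S.x k) ≤ C}.Finite) (m : ℕ) :
    {u : V | ∃ x ∈ Sq, S.f u x ≤ m ∧ S'.f u x ≤ m}.Finite := by
  obtain ⟨m0, hm0⟩ : ∃ m0, S.ξ m0 ≠ S'.ξ m0 := by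
    by_contra h; push Not at h; exact h1 (funext h)
  have h2' : ∀ i, ∃ j, S'.lim i j ≠ some (S.ξ j) := by
    intro i
    by_contra h; push Not at h; exact h2 i (funext h)
  choose b hb using h2'
  have hev : ∀ᶠ k in atTop, ∀ i ∈ Finset.range (4 * m + 1),
      (tgt^[i] (S'.v k).1).label[b i]? = S'.lim i (b i) := by
    rw [Filter.eventually_all_finset]
    intro i _
    exact S'.conv i (b i)
  obtain ⟨K, hK⟩ := eventually_atTop.mp hev
  obtain ⟨B, hB⟩ : ∃ B, ∀ i ∈ Finset.range (4 * m + 1), b i ≤ B :=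
    ⟨(Finset.range (4 * m + 1)).sup b, fun i hi => Finset.le_sup hi⟩
  have hfA := (h3 (2 * (m + 6 * (5 * m)))).biUnion (fun k _ => finite_ball (S.v k) (5 * m))
  have hfB := (Set.finite_Iio K).biUnion (fun k _ => finite_ball (S'.v k) (3 * m))
  have hfC := finite_label_ball (12 * m + 2 + B + m0) m
  refine (hfA.union (hfB.union hfC)).subset ?_
  rintro u ⟨x, hx, hu1, hu2⟩
  have hδ : (S.δ u : ℝ) ≤ m := (le_max_left _ _).trans hu1
  have hδ' : (S'.δ u : ℝ) ≤ m := (le_max_left _ _).trans hu2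
  have hδn : S.δ u ≤ m := by exact_mod_cast hδ
  have hδn' : S'.δ u ≤ m := by exact_mod_cast hδ'
  obtain ⟨p, hp, hpu⟩ := S.exists_δ u
  obtain ⟨q, hq, hqu⟩ := S'.exists_δ u
  rcases S.spine_cases hp (4 * m) with ⟨k, hk⟩ | ⟨hfar, hlab⟩
  · -- close to a target of the later strip
    left
    have hdu : d u (S.v k) ≤ 5 * m := by
      have := d_triangle u p (S.v k); omega
    have hdu' : (d u (S.v k) : ℝ) ≤ 5 * m := by exact_mod_cast hdu
    have a1 := S.f_dist u (S.v k) hx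
    have a2 := S'.f_dist u (S.v k) hx
    have a3 := S.le_f_v k x
    have a4 := S'.f_x (S.v k) (S.x k) x
    rw [mem_iUnion₂]
    refine ⟨k, ?_, ?_⟩
    · show S'.f (S.v k) (S.x k) ≤ 2 * (m + 6 * (5 * m))
      rw [dist_comm] at a4
      linarith
    · show d (S.v k) u ≤ 5 * m
      rw [d_comm]; exact hdu
  · right
    by_cases hlen : p.1.label.length ≤ 12 * m + 2 + B + m0
    · right
      exact ⟨p, hlen, by omega⟩
    · left
      rw [not_le] at hlen
      have hag : Agree p.1.label S.ξ p.1.label.length := by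
        have := agree_res S.ξ p.1.label.length
        rwa [← hlab] at this
      have hpq : d p q ≤ 2 * m := by
        have := d_triangle p u q
        rw [d_comm p u] at this; omega
      rcases S'.spine_cases hq (2 * m) with ⟨k, hk⟩ | ⟨hfar', hlab'⟩
      · -- close to a target of the earlier strip
        rw [mem_iUnion₂]
        refine ⟨k, ?_, ?_⟩
        · by_contra hkK
          rw [mem_Iio, not_lt] at hkK
          have hdp : d p (S'.v k) ≤ 4 * m := by
            have := d_triangle p q (S'.v k); omega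
          obtain ⟨r, D, hr, hD, hr'⟩ := path_lemma (M := 4 * m) (by omega) hag hfar hdp
          obtain ⟨i, hi, rfl⟩ := hr.exists_iterate (S'.v k).2
          have hi' : i ∈ Finset.range (4 * m + 1) := Finset.mem_range.mpr (by omega)
          have c1 := hK k hkK i hi'
          have c2 := hB i hi'
          have c3 := hr'.2 (b i) (by omega)
          exact hb i (c1.symm.trans c3)
        · show d (S'.v k) u ≤ 3 * m
          rw [d_comm]
          have := d_triangle u q (S'.v k)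
          omega
      · exfalso
        obtain ⟨r, D, hr, hD, hr'⟩ := path_lemma (M := 2 * m) (by omega) hag
          (hfar.mono (by omega)) hpq
        have hrq : r = q.1 := by
          obtain ⟨q, hqv⟩ := q
          cases hr with
          | refl => rfl
          | step c j hd' =>
            exfalso
            rename_i v0 D0
            have : 2 * m < v0.N - j := hfar'
            omega
        subst hrq
        have c1 := hr'.2 m0 (by omega)
        have c0 : m0 < q.1.label.length := by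
          have := hr'.1
          omega
        rw [hlab', res_get _ c0] at c1
        exact hm0 (Option.some_injective _ c1).symm

end Strip

end Pool.Agent.Lib.MP_e17db7_gt
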