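import Pool.Agent.Lib.MP_e17db7_gt.Defs

set_option linter.unusedSectionVars false
set_option linter.style.haveILetI false

/-!
# Adding half-lines to a space
-/

namespace Pool.Agent.Lib.MP_e17db7_gt

open Set Topology Filter NNReal

/-- The space obtained from `U` by adding one half-line for each of the functions `f i`. -/
inductive Ext {U I : Type} (f : I → U → ℝ≥0) : Type
  | inn : U → Ext f
  | bd : I → ℝ≥0 → Ext f

section

variable {U I : Type} [TopologicalSpace U] [T2Space U] {f : I → U → ℝ≥0}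

/-- The topology on the extended space. -/
instance : TopologicalSpace (Ext f) where
  IsOpen O := IsOpen {u | Ext.inn u ∈ O} ∧ ∀ i s, Ext.bd i s ∈ O → ∃ ε > 0, ∃ K : Set U,
    IsCompact K ∧ (∀ s', dist s' s < ε → Ext.bd i s' ∈ O) ∧
      ∀ u, u ∉ K → dist (f i u) s < ε → Ext.inn u ∈ O
  isOpen_univ := ⟨by simp, fun i s _ => ⟨1, one_pos, ∅, isCompact_empty, by simp, by simp⟩⟩
  isOpen_inter := by
    rintro A B ⟨hA, hA'⟩ ⟨hB, hB'⟩
    refine ⟨hA.inter hB, ?_⟩
    rintro i s ⟨h1, h2⟩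
    obtain ⟨ε₁, hε₁, K₁, hK₁, a1, a2⟩ := hA' i s h1
    obtain ⟨ε₂, hε₂, K₂, hK₂, b1, b2⟩ := hB' i s h2
    refine ⟨min ε₁ ε₂, lt_min hε₁ hε₂, K₁ ∪ K₂, hK₁.union hK₂, ?_, ?_⟩
    · intro s' hs'
      exact ⟨a1 s' (hs'.trans_le (min_le_left _ _)), b1 s' (hs'.trans_le (min_le_right _ _))⟩
    · intro u hu hs'
      exact ⟨a2 u (fun h => hu (Or.inl h)) (hs'.trans_le (min_le_left _ _)),
        b2 u (fun h => hu (Or.inr h)) (hs'.trans_le (min_le_right _ _))⟩
  isOpen_sUnion := by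
    intro S hS
    constructor
    · have : {u | Ext.inn u ∈ ⋃₀ S} = ⋃ A ∈ S, {u | (Ext.inn u : Ext f) ∈ A} := by
        ext u; simp
      rw [this]
      exact isOpen_biUnion fun A hA => (hS A hA).1
    · rintro i s ⟨A, hA, h⟩
      obtain ⟨ε, hε, K, hK, a1, a2⟩ := (hS A hA).2 i s h
      exact ⟨ε, hε, K, hK, fun s' hs' => ⟨A, hA, a1 s' hs'⟩, fun u hu hs' => ⟨A, hA, a2 u hu hs'⟩⟩

omit [T2Space U] in
lemma isOpen_ext {O : Set (Ext f)} : IsOpen O ↔ IsOpen {u | Ext.inn u ∈ O} ∧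
    ∀ i s, Ext.bd i s ∈ O → ∃ ε > 0, ∃ K : Set U,
    IsCompact K ∧ (∀ s', dist s' s < ε → Ext.bd i s' ∈ O) ∧
      ∀ u, u ∉ K → dist (f i u) s < ε → Ext.inn u ∈ O := Iff.rfl

/-- Basic neighbourhoods of the new points. -/
def nb (f : I → U → ℝ≥0) (i : I) (s : ℝ≥0) (ε : ℝ) (K : Set U) : Set (Ext f) :=
  {x | match x with
    | Ext.inn u => u ∉ K ∧ dist (f i u) s < ε
    | Ext.bd j t => j = i ∧ dist t s < ε}

omit [TopologicalSpace U] [T2Space U] in
@[simp] lemma inn_mem_nb {i : I} {s : ℝ≥0} {ε : ℝ} {K : Set U} {u : U} :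
    (Ext.inn u : Ext f) ∈ nb f i s ε K ↔ u ∉ K ∧ dist (f i u) s < ε := Iff.rfl

omit [TopologicalSpace U] [T2Space U] in
@[simp] lemma bd_mem_nb {i j : I} {s t : ℝ≥0} {ε : ℝ} {K : Set U} :
    (Ext.bd j t : Ext f) ∈ nb f i s ε K ↔ j = i ∧ dist t s < ε := Iff.rfl

variable (hf : ∀ i, Continuous (f i))

include hf in
lemma isOpen_nb (i : I) (s : ℝ≥0) (ε : ℝ) {K : Set U} (hK : IsCompact K) :
    IsOpen (nb f i s ε K) := by
  rw [isOpen_ext]
  constructor
  · have : {u | (Ext.inn u : Ext f) ∈ nb f i s ε K} = Kᶜ ∩ {u | dist (f i u) s < ε} := by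
      ext u; simp
    rw [this]
    exact hK.isClosed.isOpen_compl.inter (isOpen_lt ((hf i).dist continuous_const)
      continuous_const)
  · rintro j t ⟨rfl, ht⟩
    refine ⟨ε - dist t s, by linarith, K, hK, ?_, ?_⟩
    · intro s' hs'
      refine ⟨rfl, ?_⟩
      have := dist_triangle s' t s
      linarith
    · intro u hu hs'
      refine ⟨hu, ?_⟩
      have := dist_triangle (f j u) t s
      linarith

include hf in
lemma nb_mem_nhds (i : I) (s : ℝ≥0) {ε : ℝ} (hε : 0 < ε) {K : Set U} (hK : IsCompact K) :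
    nb f i s ε K ∈ 𝓝 (Ext.bd i s : Ext f) :=
  (isOpen_nb hf i s ε hK).mem_nhds (by simp [hε])

omit [T2Space U] in
lemma exists_nb_of_mem_nhds {i : I} {s : ℝ≥0} {W : Set (Ext f)}
    (h : W ∈ 𝓝 (Ext.bd i s : Ext f)) : ∃ ε > 0, ∃ K : Set U, IsCompact K ∧ nb f i s ε K ⊆ W := by
  obtain ⟨O, hOW, hO, hx⟩ := mem_nhds_iff.mp h
  obtain ⟨ε, hε, K, hK, a1, a2⟩ := (isOpen_ext.mp hO).2 i s hx
  refine ⟨ε, hε, K, hK, ?_⟩
  rintro (u | ⟨j, t⟩) hu
  · exact hOW (a2 u hu.1 hu.2)
  · obtain ⟨rfl, ht⟩ := hu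
    exact hOW (a1 t ht)

omit [T2Space U] in
lemma continuous_inn : Continuous (Ext.inn : U → Ext f) :=
  ⟨fun _ hO => (isOpen_ext.mp hO).1⟩

omit [T2Space U] in
lemma isOpenMap_inn : IsOpenMap (Ext.inn : U → Ext f) := by
  intro O hO
  rw [isOpen_ext]
  constructor
  · have : {u | (Ext.inn u : Ext f) ∈ Ext.inn '' O} = O := by
      ext u; simp
    rw [this]; exact hO
  · rintro i s ⟨u, _, h⟩
    cases h

omit [T2Space U] in
lemma continuous_bd (i : I) : Continuous (Ext.bd i : ℝ≥0 → Ext f) := by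
  constructor
  intro O hO
  rw [Metric.isOpen_iff]
  intro s hs
  obtain ⟨ε, hε, K, hK, a1, a2⟩ := (isOpen_ext.mp hO).2 i s hs
  exact ⟨ε, hε, fun s' hs' => a1 s' hs'⟩

omit [T2Space U] in
lemma isOpenEmbedding_inn : IsOpenEmbedding (Ext.inn : U → Ext f) :=
  IsOpenEmbedding.of_continuous_injective_isOpenMap continuous_inn
    (fun _ _ h => by cases h; rfl) isOpenMap_inn

/-- The hypotheses on the functions. -/
structure Sys (f : I → U → ℝ≥0) : Prop where
  cont : ∀ i, Continuous (f i)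
  ad : ∀ i j, i ≠ j → ∀ m : ℝ≥0, ∃ K : Set U, IsCompact K ∧ ∀ u, f i u ≤ m → f j u ≤ m → u ∈ K
  catch' : ∀ u : ℕ → U, (∀ K : Set U, IsCompact K → ∀ᶠ k in atTop, u k ∉ K) →
    ∃ i, ∃ m : ℝ≥0, ∃ᶠ k in atTop, f i (u k) ≤ m
  conn : ∀ i (s : ℝ≥0) (ε : ℝ), 0 < ε → ∀ K : Set U, IsCompact K →
    ∃ ε' > 0, ∃ K' : Set U, IsCompact K' ∧ ∃ C : Set U, IsPreconnected C ∧
      (∀ u ∈ C, u ∉ K ∧ dist (f i u) s < ε) ∧ ∀ u, u ∉ K' → dist (f i u) s < ε' → u ∈ C
  dens : ∀ i (s : ℝ≥0) (ε : ℝ), 0 < ε → ∀ K : Set U, IsCompact K → ∃ u, u ∉ K ∧ dist (f i u) s < ε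

variable (S : Sys f)

include S in
lemma t2_ext [LocallyCompactSpace U] : T2Space (Ext f) := by
  refine ⟨?_⟩
  have hb : ∀ (u : U) (i : I) (s : ℝ≥0), ∃ A B : Set (Ext f), IsOpen A ∧ IsOpen B ∧
      Ext.inn u ∈ A ∧ Ext.bd i s ∈ B ∧ Disjoint A B := by
    intro u i s
    obtain ⟨K, hK, hu⟩ := exists_compact_mem_nhds u
    refine ⟨Ext.inn '' interior K, nb f i s 1 K, isOpenMap_inn _ isOpen_interior,
      isOpen_nb S.cont i s 1 hK, ⟨u, mem_interior_iff_mem_nhds.mpr hu, rfl⟩, by simp, ?_⟩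
    rw [Set.disjoint_left]
    rintro _ ⟨v, hv, rfl⟩ h
    exact h.1 (interior_subset hv)
  rintro (u | ⟨i, s⟩) (v | ⟨j, t⟩) hne
  · have huv : u ≠ v := fun e => hne (by rw [e])
    obtain ⟨A, B, hA, hB, huA, hvB, hAB⟩ := t2_separation huv
    refine ⟨Ext.inn '' A, Ext.inn '' B, isOpenMap_inn _ hA, isOpenMap_inn _ hB, ⟨u, huA, rfl⟩,
      ⟨v, hvB, rfl⟩, ?_⟩
    rw [Set.disjoint_left]
    rintro _ ⟨x, hx, rfl⟩ ⟨y, hy, e⟩
    cases e
    exact Set.disjoint_left.mp hAB hx hy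
  · exact hb u j t
  · obtain ⟨A, B, hA, hB, h1, h2, h3⟩ := hb v i s
    exact ⟨B, A, hB, hA, h2, h1, h3.symm⟩
  · by_cases hij : i = j
    · subst hij
      have hst : s ≠ t := fun e => hne (by rw [e])
      have hd : 0 < dist s t := dist_pos.mpr hst
      refine ⟨nb f i s (dist s t / 2) ∅, nb f i t (dist s t / 2) ∅,
        isOpen_nb S.cont _ _ _ isCompact_empty, isOpen_nb S.cont _ _ _ isCompact_empty,
        by simp [hst], by simp [hst], ?_⟩
      rw [Set.disjoint_left]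
      rintro (u | ⟨k, r⟩) h1 h2
      · have h3 := h1.2
        have h4 := h2.2
        have h5 := dist_triangle s (f i u) t
        rw [dist_comm s (f i u)] at h5
        linarith
      · have h3 := h1.2
        have h4 := h2.2
        have h5 := dist_triangle s r t
        rw [dist_comm s r] at h5
        linarith
    · obtain ⟨K, hK, h⟩ := S.ad i j hij (max (s + 1) (t + 1))
      refine ⟨nb f i s 1 K, nb f j t 1 K, isOpen_nb S.cont _ _ _ hK, isOpen_nb S.cont _ _ _ hK,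
        by simp, by simp, ?_⟩
      rw [Set.disjoint_left]
      rintro (u | ⟨k, r⟩) h1 h2
      · apply h1.1
        have aux : ∀ (a b : ℝ≥0), dist a b < 1 → a ≤ b + 1 := by
          intro a b hab
          rw [NNReal.dist_eq] at hab
          have := (abs_lt.mp hab).2
          rw [← NNReal.coe_le_coe]; push_cast; linarith
        exact h u ((aux _ _ h1.2).trans (le_max_left _ _)) ((aux _ _ h2.2).trans (le_max_right _ _))
      · exact hij (h1.1.symm.trans h2.1)


/-- Convergence of points of `U` to new points. -/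
lemma tendsto_bd {i : I} {s : ℝ≥0} {l : Filter ℕ} {u : ℕ → U}
    (h1 : ∀ K : Set U, IsCompact K → ∀ᶠ k in l, u k ∉ K)
    (h2 : Tendsto (fun k => f i (u k)) l (𝓝 s)) :
    Tendsto (fun k => (Ext.inn (u k) : Ext f)) l (𝓝 (Ext.bd i s)) := by
  rw [tendsto_def]
  intro W hW
  obtain ⟨ε, hε, K, hK, hKW⟩ := exists_nb_of_mem_nhds hW
  have h3 : ∀ᶠ k in l, dist (f i (u k)) s < ε := (Metric.tendsto_nhds.mp h2) ε hε
  filter_upwards [h1 K hK, h3] with k hk1 hk2
  exact hKW ⟨hk1, hk2⟩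

/-- The bands are compact. -/
lemma isCompact_band (hf : ∀ i, Continuous (f i)) (i : I) (m : ℝ≥0) :
    IsCompact ({x : Ext f | match x with
      | Ext.inn u => f i u ≤ m
      | Ext.bd j t => j = i ∧ t ≤ m}) := by
  rw [isCompact_iff_finite_subcover]
  intro ι A hA hcov
  -- cover the boundary part
  have hseg : IsCompact ((Ext.bd i : ℝ≥0 → Ext f) '' Set.Icc 0 m) :=
    isCompact_Icc.image (continuous_bd i)
  have hcov1 : (Ext.bd i : ℝ≥0 → Ext f) '' Set.Icc 0 m ⊆ ⋃ j, A j := by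
    rintro _ ⟨t, ht, rfl⟩
    exact hcov (show (Ext.bd i t : Ext f) ∈ _ from ⟨rfl, ht.2⟩)
  obtain ⟨T, hT⟩ := hseg.elim_finite_subcover A hA hcov1
  -- local data
  have hO : IsOpen (⋃ j ∈ T, A j) := isOpen_biUnion fun j _ => hA j
  have hloc : ∀ t : ℝ≥0, t ≤ m → ∃ ε > 0, ∃ K : Set U, IsCompact K ∧
      ∀ u, u ∉ K → dist (f i u) t < ε → Ext.inn u ∈ ⋃ j ∈ T, A j := by
    intro t ht
    obtain ⟨ε, hε, K, hK, _, a2⟩ := (isOpen_ext.mp hO).2 i t (hT ⟨t, ⟨zero_le, ht⟩, rfl⟩)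
    exact ⟨ε, hε, K, hK, a2⟩
  choose! ε hε K hK hKε using hloc
  obtain ⟨F, hF⟩ := (isCompact_Icc (a := (0 : ℝ≥0)) (b := m)).elim_nhds_subcover
    (fun t => Metric.ball t (ε t)) (fun t ht => Metric.ball_mem_nhds t (hε t ht.2))
  have hKF : IsCompact (⋃ t ∈ F, K t) :=
    F.isCompact_biUnion fun t ht => hK t (hF.1 t ht).2
  have hres : IsCompact ((⋃ t ∈ F, K t) ∩ {u | f i u ≤ m}) :=
    hKF.inter_right (isClosed_le (hf i) continuous_const)
  have hcov2 : (Ext.inn : U → Ext f) '' ((⋃ t ∈ F, K t) ∩ {u | f i u ≤ m}) ⊆ ⋃ j, A j := by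
    rintro _ ⟨u, hu, rfl⟩
    exact hcov (show (Ext.inn u : Ext f) ∈ _ from hu.2)
  obtain ⟨T', hT'⟩ := (hres.image continuous_inn).elim_finite_subcover A hA hcov2
  classical
  refine ⟨T ∪ T', ?_⟩
  rintro (u | ⟨j, t⟩) hu
  · have hu' : f i u ≤ m := hu
    by_cases h : u ∈ ⋃ t ∈ F, K t
    · have := hT' ⟨u, ⟨h, hu'⟩, rfl⟩
      rw [Set.mem_iUnion₂] at this ⊢
      obtain ⟨j, hj, hj'⟩ := this
      exact ⟨j, Finset.mem_union_right _ hj, hj'⟩
    · obtain ⟨t, ht, htu⟩ := Set.mem_iUnion₂.mp (hF.2 ⟨zero_le, hu'⟩)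
      have hnot : u ∉ K t := fun h' => h (Set.mem_iUnion₂.mpr ⟨t, ht, h'⟩)
      have := hKε t (hF.1 t ht).2 u hnot htu
      rw [Set.mem_iUnion₂] at this ⊢
      obtain ⟨j, hj, hj'⟩ := this
      exact ⟨j, Finset.mem_union_left _ hj, hj'⟩
  · obtain ⟨rfl, ht⟩ := (show j = i ∧ t ≤ m from hu)
    have := hT ⟨t, ⟨zero_le, ht⟩, rfl⟩
    rw [Set.mem_iUnion₂] at this ⊢
    obtain ⟨k, hk, hk'⟩ := this
    exact ⟨k, Finset.mem_union_left _ hk, hk'⟩

include S in
lemma locallyCompact_ext [LocallyCompactSpace U] : LocallyCompactSpace (Ext f) := by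
  have : T2Space (Ext f) := t2_ext S
  have : WeaklyLocallyCompactSpace (Ext f) := by
    refine ⟨?_⟩
    rintro (u | ⟨i, s⟩)
    · obtain ⟨K, hK, hu⟩ := exists_compact_mem_nhds u
      refine ⟨Ext.inn '' K, hK.image continuous_inn, ?_⟩
      exact isOpenEmbedding_inn.image_mem_nhds.mpr hu
    · refine ⟨_, isCompact_band S.cont i (s + 1), ?_⟩
      refine Filter.mem_of_superset (nb_mem_nhds S.cont i s one_pos isCompact_empty) ?_
      have aux : ∀ (a b : ℝ≥0), dist a b < 1 → a ≤ b + 1 := by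
        intro a b hab
        rw [NNReal.dist_eq] at hab
        have := (abs_lt.mp hab).2
        rw [← NNReal.coe_le_coe]; push_cast; linarith
      rintro (u | ⟨j, t⟩) hu
      · exact aux _ _ hu.2
      · exact ⟨hu.1, aux _ _ hu.2⟩
  infer_instance

include S in
lemma dense_inn : ∀ (i : I) (s : ℝ≥0) (W : Set (Ext f)), W ∈ 𝓝 (Ext.bd i s) →
    ∃ u, Ext.inn u ∈ W := by
  intro i s W hW
  obtain ⟨ε, hε, K, hK, h⟩ := exists_nb_of_mem_nhds hW
  obtain ⟨u, hu1, hu2⟩ := S.dens i s ε hε K hK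
  exact ⟨u, h ⟨hu1, hu2⟩⟩

include S in
lemma locallyConnected_ext [LocallyConnectedSpace U] : LocallyConnectedSpace (Ext f) := by
  rw [locallyConnectedSpace_iff_connected_subsets]
  rintro (u | ⟨i, s⟩) W hW
  · have h1 : Ext.inn ⁻¹' W ∈ 𝓝 u := continuous_inn.continuousAt hW
    obtain ⟨V, hV, hVc, hVW⟩ := (locallyConnectedSpace_iff_connected_subsets.mp
      (inferInstance : LocallyConnectedSpace U)) u _ h1
    refine ⟨Ext.inn '' V, isOpenEmbedding_inn.image_mem_nhds.mpr hV,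
      hVc.image _ continuous_inn.continuousOn, ?_⟩
    rintro _ ⟨v, hv, rfl⟩
    exact hVW hv
  · obtain ⟨ε, hε, K, hK, h⟩ := exists_nb_of_mem_nhds hW
    obtain ⟨ε', hε', K', hK', C, hC, hC1, hC2⟩ := S.conn i s ε hε K hK
    refine ⟨nb f i s (min ε ε') (K ∪ K') ∪ Ext.inn '' C, ?_, ?_, ?_⟩
    · exact Filter.mem_of_superset (nb_mem_nhds S.cont i s (lt_min hε hε') (hK.union hK'))
        Set.subset_union_left
    · have hCc : IsPreconnected ((Ext.inn : U → Ext f) '' C) :=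
        hC.image _ continuous_inn.continuousOn
      refine hCc.subset_closure Set.subset_union_right ?_
      rintro (u | ⟨j, t⟩) hx
      · rcases hx with hx | hx
        · have hx' := inn_mem_nb.mp hx
          apply subset_closure
          refine ⟨u, hC2 u (fun h' => hx'.1 (Or.inr h')) (hx'.2.trans_le (min_le_right _ _)), rfl⟩
        · exact subset_closure hx
      · rcases hx with hx | ⟨_, _, h'⟩
        · obtain ⟨rfl, ht⟩ := bd_mem_nb.mp hx
          rw [mem_closure_iff_nhds]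
          intro N hN
          obtain ⟨η, hη, L, hL, hN'⟩ := exists_nb_of_mem_nhds hN
          obtain ⟨u, hu1, hu2⟩ := S.dens j t (min η (min ε ε' - dist t s))
            (lt_min hη (by linarith)) (L ∪ K') (hL.union hK')
          refine ⟨Ext.inn u, hN' ⟨fun h' => hu1 (Or.inl h'), hu2.trans_le (min_le_left _ _)⟩,
            u, hC2 u (fun h' => hu1 (Or.inr h')) ?_, rfl⟩
          have h1 := dist_triangle (f j u) t s
          have h2 := hu2.trans_le (min_le_right _ _)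
          have h3 := min_le_right ε ε'
          linarith
        · cases h'
    · rintro (u | ⟨j, t⟩) hx
      · rcases hx with hx | ⟨v, hv, e⟩
        · have hx' := inn_mem_nb.mp hx
          exact h ⟨fun h' => hx'.1 (Or.inl h'), hx'.2.trans_le (min_le_left _ _)⟩
        · cases e
          exact h (hC1 _ hv)
      · rcases hx with hx | ⟨_, _, h'⟩
        · have hx' := bd_mem_nb.mp hx
          exact h ⟨hx'.1, hx'.2.trans_le (min_le_left _ _)⟩
        · cases h'

include S in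
lemma pseudocompact_ext : Pseudocompact (Ext f) := by
  intro g hg
  by_contra hno
  push Not at hno
  have hU : ∀ n : ℕ, ∃ u : U, (n : ℝ) < |g (Ext.inn u)| := by
    intro n
    obtain ⟨x, hx⟩ := hno n
    have hopen : IsOpen {x | (n : ℝ) < |g x|} := isOpen_lt continuous_const hg.abs
    rcases x with u | ⟨i, s⟩
    · exact ⟨u, hx⟩
    · obtain ⟨u, hu⟩ := dense_inn S i s _ (hopen.mem_nhds hx)
      exact ⟨u, hu⟩
  choose u hu using hU
  have hK : ∀ K : Set U, IsCompact K → ∀ᶠ k in atTop, u k ∉ K := by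
    intro K hK
    have hb : IsCompact ((fun v => |g (Ext.inn v)|) '' K) :=
      hK.image (hg.comp continuous_inn).abs
    obtain ⟨C, hC⟩ := hb.bddAbove
    obtain ⟨N, hN⟩ := exists_nat_gt C
    filter_upwards [eventually_ge_atTop N] with k hk hmem
    have h1 := hC ⟨u k, hmem, rfl⟩
    have h2 := hu k
    have h3 : (N : ℝ) ≤ k := by exact_mod_cast hk
    simp only at h1
    linarith
  obtain ⟨i, m, hm⟩ := S.catch' u hK
  obtain ⟨s, hs, φ, hφ, hlim⟩ := (isCompact_Icc (a := (0 : ℝ≥0)) (b := m)).tendsto_subseq'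
    (x := fun k => f i (u k)) (hm.mono fun k hk => ⟨zero_le, hk⟩)
  have h1 := tendsto_bd (f := f) (i := i) (s := s) (u := u ∘ φ) (l := atTop)
    (fun K hK' => hφ.tendsto_atTop.eventually (hK K hK')) hlim
  have h2 := (hg.tendsto _).comp h1
  have h3 : ∀ᶠ k in atTop, |g (Ext.inn (u (φ k)))| < |g (Ext.bd i s)| + 1 := by
    have := (continuous_abs.tendsto _).comp h2
    exact this.eventually (gt_mem_nhds (by linarith))
  obtain ⟨N, hN⟩ := exists_nat_gt (|g (Ext.bd i s)| + 1)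
  obtain ⟨k, hk1, hk2⟩ := (h3.and (eventually_ge_atTop N)).exists
  have h4 := hu (φ k)
  have h5 : (N : ℝ) ≤ (φ k : ℝ) := by exact_mod_cast hk2.trans (hφ.id_le k)
  linarith

include S in
lemma not_metrizable_ext [Nonempty I] : ¬ TopologicalSpace.MetrizableSpace (Ext f) := by
  intro hmet
  letI := TopologicalSpace.metrizableSpaceMetric (Ext f)
  obtain ⟨i⟩ := (inferInstance : Nonempty I)
  -- the closed half-line
  have hcl : IsClosed (Set.range (Ext.bd i : ℝ≥0 → Ext f)) := by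
    rw [← isOpen_compl_iff, isOpen_ext]
    constructor
    · have : {u : U | (Ext.inn u : Ext f) ∈ (Set.range (Ext.bd i : ℝ≥0 → Ext f))ᶜ} = Set.univ := by
        ext u; simp
      rw [this]; exact isOpen_univ
    · intro j s hj
      refine ⟨1, one_pos, ∅, isCompact_empty, ?_, ?_⟩
      · rintro s' - ⟨t, ht⟩
        apply hj
        cases ht
        exact ⟨s, rfl⟩
      · rintro u - - ⟨t, ht⟩
        cases ht
  have hemb : IsEmbedding (Ext.bd i : ℝ≥0 → Ext f) := by
    refine ⟨⟨?_⟩, fun _ _ h => by cases h; rfl⟩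
    refine le_antisymm (continuous_iff_le_induced.mp (continuous_bd i)) ?_
    intro O hO
    rw [isOpen_induced_iff]
    refine ⟨{x | match x with
      | Ext.inn u => f i u ∈ O
      | Ext.bd j t => j = i ∧ t ∈ O}, ?_, ?_⟩
    · rw [isOpen_ext]
      constructor
      · exact hO.preimage (S.cont i)
      · rintro j t ⟨rfl, ht⟩
        obtain ⟨ε, hε, hb⟩ := Metric.isOpen_iff.mp hO t ht
        exact ⟨ε, hε, ∅, isCompact_empty, fun s' hs' => ⟨rfl, hb hs'⟩, fun u _ hu => hb hu⟩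
    · ext t; simp
  have hce : IsClosedEmbedding (Ext.bd i : ℝ≥0 → Ext f) := ⟨hemb, hcl⟩
  obtain ⟨g, hg⟩ := ContinuousMap.exists_extension (Y := ℝ) hce
    ⟨fun s : ℝ≥0 => (s : ℝ), NNReal.continuous_coe⟩
  obtain ⟨C, hC⟩ := pseudocompact_ext S g g.continuous
  have h1 := hC (Ext.bd i (Real.toNNReal (|C| + 1)))
  have h2 : g (Ext.bd i (Real.toNNReal (|C| + 1))) = |C| + 1 := by
    have := DFunLike.congr_fun hg (Real.toNNReal (|C| + 1))
    simp only [ContinuousMap.comp_apply, ContinuousMap.coe_mk] at this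
    rw [this, Real.coe_toNNReal _ (by positivity)]
  rw [h2, abs_of_pos (by positivity)] at h1
  have := le_abs_self C
  linarith

include S in
lemma development_ext [TopologicalSpace.MetrizableSpace U] [LocallyCompactSpace U]
    [SigmaCompactSpace U] : ∃ G : ℕ → Set (Set (Ext f)), IsDevelopment G := by
  letI := TopologicalSpace.metrizableSpaceMetric U
  let E : CompactExhaustion U := default
  refine ⟨fun n => (Set.range fun u : U => Ext.inn '' Metric.ball u (1 / ((n : ℝ) + 1))) ∪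
    (Set.range fun p : I × ℝ≥0 => nb f p.1 p.2 (1 / ((n : ℝ) + 1)) (E n)), ?_, ?_⟩
  · intro n
    have hpos : (0 : ℝ) < 1 / ((n : ℝ) + 1) := by positivity
    constructor
    · rintro g (⟨u, rfl⟩ | ⟨p, rfl⟩)
      · exact isOpenMap_inn _ Metric.isOpen_ball
      · exact isOpen_nb S.cont _ _ _ (E.isCompact n)
    · rw [Set.eq_univ_iff_forall]
      rintro (u | ⟨i, s⟩)
      · exact ⟨_, Or.inl ⟨u, rfl⟩, u, Metric.mem_ball_self hpos, rfl⟩
      · exact ⟨_, Or.inr ⟨(i, s), rfl⟩, rfl, by simpa using hpos⟩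
  · rintro (u | ⟨i, s⟩) W hW hx
    · have h1 : Ext.inn ⁻¹' W ∈ 𝓝 u := continuous_inn.continuousAt (hW.mem_nhds hx)
      obtain ⟨ε, hε, hball⟩ := Metric.mem_nhds_iff.mp h1
      obtain ⟨n, hn⟩ := exists_nat_one_div_lt (show (0 : ℝ) < ε / 2 by positivity)
      obtain ⟨m, hm⟩ := E.exists_mem u
      refine ⟨max n m, ?_⟩
      have hle : 1 / (((max n m : ℕ) : ℝ) + 1) ≤ 1 / ((n : ℝ) + 1) := by
        apply one_div_le_one_div_of_le (by positivity)
        have : (n : ℝ) ≤ ((max n m : ℕ) : ℝ) := by exact_mod_cast le_max_left n m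
        linarith
      rintro y ⟨g, ⟨hg | hg, hu⟩, hy⟩
      · obtain ⟨v, rfl⟩ := hg
        obtain ⟨u', hu', e⟩ := hu
        cases e
        obtain ⟨w, hw, rfl⟩ := hy
        apply hball
        rw [Metric.mem_ball] at hu' hw ⊢
        have h2 := dist_triangle w v u
        rw [dist_comm v u] at h2
        linarith
      · obtain ⟨p, rfl⟩ := hg
        exact absurd (E.subset (le_max_right n m) hm) hu.1
    · obtain ⟨ε, hε, K, hK, h⟩ := exists_nb_of_mem_nhds (hW.mem_nhds hx)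
      obtain ⟨n, hn⟩ := exists_nat_one_div_lt (show (0 : ℝ) < ε / 2 by positivity)
      obtain ⟨m, hm⟩ := E.exists_superset_of_isCompact hK
      refine ⟨max n m, ?_⟩
      have hle : 1 / (((max n m : ℕ) : ℝ) + 1) ≤ 1 / ((n : ℝ) + 1) := by
        apply one_div_le_one_div_of_le (by positivity)
        have : (n : ℝ) ≤ ((max n m : ℕ) : ℝ) := by exact_mod_cast le_max_left n m
        linarith
      rintro y ⟨g, ⟨hg | hg, hu⟩, hy⟩
      · obtain ⟨v, rfl⟩ := hg
        obtain ⟨u', hu', e⟩ := hu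
        cases e
      · obtain ⟨⟨j, t⟩, rfl⟩ := hg
        obtain ⟨rfl, ht⟩ := bd_mem_nb.mp hu
        apply h
        simp only at ht
        rcases y with v | ⟨k, r⟩
        · obtain ⟨hv1, hv2⟩ := inn_mem_nb.mp hy
          refine ⟨fun h' => hv1 (E.subset (le_max_right n m) (hm h')), ?_⟩
          have h2 := dist_triangle (f i v) t s
          rw [dist_comm t s] at h2
          linarith
        · obtain ⟨rfl, hr⟩ := bd_mem_nb.mp hy
          refine ⟨rfl, ?_⟩
          have h2 := dist_triangle r t s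
          rw [dist_comm t s] at h2
          simp only at hr
          linarith

/-- The extended space is the required example. -/
theorem ext_example [TopologicalSpace.MetrizableSpace U] [LocallyCompactSpace U]
    [SigmaCompactSpace U] [LocallyConnectedSpace U] [Nonempty I] (S : Sys f) :
    MooreSpace (Ext f) ∧ LocallyCompactSpace (Ext f) ∧ LocallyConnectedSpace (Ext f) ∧
      Pseudocompact (Ext f) ∧ ¬ TopologicalSpace.MetrizableSpace (Ext f) := by
  have h1 : T2Space (Ext f) := t2_ext S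
  have h2 : LocallyCompactSpace (Ext f) := locallyCompact_ext S
  exact ⟨⟨h1, inferInstance, development_ext S⟩, h2, locallyConnected_ext S,
    pseudocompact_ext S, not_metrizable_ext S⟩

end

end Pool.Agent.Lib.MP_e17db7_gt
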